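import Pool.Agent.K4H17.FPP.LD.Fkg

/-!
First-passage percolation on `ℤ²`: supermultiplicativity and the lower-tail large deviation rate
(helper58).
-/

set_option autoImplicit false
open MeasureTheory ProbabilityTheory Filter
open scoped Pointwise

namespace Pool.Agent.K4H17.FPP

/-- two consecutive stretches -/
theorem superm_two (v : V) (c : ℝ) (m n : ℕ) :
    PP.real {x | Fast x Set.univ 0 (m • v) (m * c)} * PP.real {x | Fast x Set.univ 0 (n • v) (n * c)} ≤
      PP.real {x | Fast x Set.univ 0 ((m + n) • v) ((m + n : ℕ) * c)} := by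
  have h := fkg_fast 0 (m • v) (m • v) ((m + n) • v) (m * c) (n * c)
  have e1 : PP.real {x | Fast x Set.univ (m • v) ((m + n) • v) (n * c)} =
      PP.real {x | Fast x Set.univ 0 (n • v) (n * c)} := by
    have := real_fast_translate 0 (n • v) (m • v) (n * c)
    rw [← this, zero_add, add_comm (n • v) (m • v), ← add_nsmul]
  rw [e1] at h
  refine h.trans (measureReal_mono ?_ (measure_ne_top _ _))
  rintro x ⟨h1, h2⟩
  have h3 := h1.trans h2
  have e2 : (m : ℝ) * c + n * c = ((m + n : ℕ) : ℝ) * c := by push_cast; ring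
  rw [e2] at h3
  exact h3

/-- PIECE D: supermultiplicativity -/
theorem superm (v : V) (c : ℝ) (n : ℕ) (hn : 1 ≤ n) :
    PP.real {x | Fast x Set.univ 0 v c} ^ n ≤ PP.real {x | Fast x Set.univ 0 (n • v) (n * c)} := by
  induction n, hn using Nat.le_induction with
  | base => simp
  | succ n hn ih =>
    rw [pow_succ]
    have h := superm_two v c n 1
    have e1 : {x : W | Fast x Set.univ 0 ((1 : ℕ) • v) ((1 : ℕ) * c)} =
        {x | Fast x Set.univ 0 v c} := by simp
    rw [e1] at h
    exact (mul_le_mul_of_nonneg_right ih measureReal_nonneg).trans h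

/-- the weights of finitely many edges are small with positive probability -/
theorem all_le_pos (F : Finset (Sym2 V)) {y : ℝ} (hy : 0 < y) :
    0 < PP.real {x | ∀ e ∈ F, x e ≤ y} := by
  have h := Measure.infinitePi_pi (μ := fun _ : Sym2 V => expMeasure 1) (s := F)
    (t := fun _ => Set.Iic y) (by intro i _; exact measurableSet_Iic)
  have h2 : (Set.pi ((F : Finset (Sym2 V)) : Set (Sym2 V)) (fun _ => Set.Iic y) : Set W) =
      {x | ∀ e ∈ F, x e ≤ y} := by
    ext x
    simp [Set.mem_pi]
  rw [h2, Finset.prod_const] at h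
  have h3 : PP.real {x | ∀ e ∈ F, x e ≤ y} = ((expMeasure 1).real (Set.Iic y)) ^ F.card := by
    rw [measureReal_def]
    have : PP {x | ∀ e ∈ F, x e ≤ y} = (expMeasure 1 (Set.Iic y)) ^ F.card := h
    rw [this, ENNReal.toReal_pow, measureReal_def]
  rw [h3, exp_real_Iic y hy.le]
  apply pow_pos
  have : Real.exp (-y) < 1 := by
    rw [Real.exp_lt_one_iff]
    linarith
  linarith

theorem fast_pos (v : V) {c : ℝ} (hc : 0 < c) : 0 < PP.real {x | Fast x Set.univ 0 v c} := by
  obtain ⟨y, hy⟩ : ∃ y : ℝ, y = c / (nrm v + 1) := ⟨_, rfl⟩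
  have hn : (0 : ℝ) < nrm v + 1 := by positivity
  have hy0 : 0 < y := by rw [hy]; positivity
  have hyc : (nrm (v - 0) : ℝ) * y < c := by
    rw [sub_zero, hy, ← mul_div_assoc, div_lt_iff₀ hn]
    nlinarith
  refine lt_of_lt_of_le (all_le_pos (edgesIn 0 (nrm (v - 0))) hy0)
    (measureReal_mono ?_ (measure_ne_top _ _))
  intro x hx
  exact (fast_stair (fun a b ha hb _ => hx _ (mem_edgesIn ha hb)) hyc).mono (Set.subset_univ _)
    le_rfl

theorem rate_lim (v : V) {c : ℝ} (hc : 0 < c) : ∃ I : ℝ, 0 ≤ I ∧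
    Tendsto (fun n : ℕ => -Real.log (PP.real {x | Fast x Set.univ 0 (n • v) (n * c)}) / n) atTop
      (nhds I) ∧ PP.real {x | Fast x Set.univ 0 v c} ≤ Real.exp (-I) := by
  set P : ℕ → ℝ := fun n => PP.real {x | Fast x Set.univ 0 (n • v) (n * c)} with hP
  set u : ℕ → ℝ := fun n => if n = 0 then 0 else -Real.log (P n) with hu
  have P1 : ∀ n, P n ≤ 1 := fun n => measureReal_le_one
  have P0 : ∀ n, n ≠ 0 → 0 < P n := by
    intro n hn
    have : (0 : ℝ) < n := by exact_mod_cast Nat.pos_of_ne_zero hn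
    exact fast_pos (n • v) (by positivity)
  have u0 : ∀ n, 0 ≤ u n := by
    intro n
    rw [hu]
    dsimp only
    split_ifs with h
    · exact le_rfl
    · have := Real.log_nonpos (P0 n h).le (P1 n)
      linarith
  have us : Subadditive u := by
    intro m n
    rcases Nat.eq_zero_or_pos m with rfl | hm
    · simp [hu]
    rcases Nat.eq_zero_or_pos n with rfl | hn
    · simp [hu]
    have hm' : m ≠ 0 := by omega
    have hn' : n ≠ 0 := by omega
    have hmn : m + n ≠ 0 := by omega
    have h := superm_two v c m n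
    have h2 := Real.log_le_log (mul_pos (P0 m hm') (P0 n hn')) h
    rw [Real.log_mul (P0 m hm').ne' (P0 n hn').ne'] at h2
    simp only [hu, hm', hn', hmn, if_false]
    have h3 : Real.log (PP.real {x | Fast x Set.univ 0 ((m + n) • v) ((m + n : ℕ) * c)}) =
      Real.log (P (m + n)) := rfl
    rw [h3] at h2
    linarith
  have bdd : BddBelow (Set.range fun n => u n / n) := by
    refine ⟨0, ?_⟩
    rintro _ ⟨n, rfl⟩
    exact div_nonneg (u0 n) (Nat.cast_nonneg n)
  have ht := us.tendsto_lim bdd
  refine ⟨us.lim, ?_, ?_, ?_⟩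
  · exact ge_of_tendsto' ht fun n => div_nonneg (u0 n) (Nat.cast_nonneg n)
  · refine ht.congr' ?_
    filter_upwards [eventually_ge_atTop 1] with n hn
    have hn' : n ≠ 0 := by omega
    simp [hu, hn', hP]
  · have h1 := us.lim_le_div bdd (one_ne_zero)
    have e1 : u 1 / ((1 : ℕ) : ℝ) = -Real.log (PP.real {x | Fast x Set.univ 0 v c}) := by
      simp [hu, hP]
    rw [e1] at h1
    have h2 : Real.log (PP.real {x | Fast x Set.univ 0 v c}) ≤ -us.lim := by linarith
    exact (Real.log_le_iff_le_exp (fast_pos v hc)).1 h2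

end Pool.Agent.K4H17.FPP
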