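import Pool.Agent.K4H17.FPP.LD.Iter
import Pool.Agent.K4H17.FPP.LD.Fek
import Pool.Agent.K4H17.FPP.AsmOuter

/-!
First-passage percolation on `ℤ²`: the rate function of the lower tail and the outer half.
-/

set_option autoImplicit false
open MeasureTheory ProbabilityTheory Filter
open scoped Pointwise Topology

namespace Pool.Agent.K4H17.FPP

variable {Ω : Type} [MeasureSpace Ω] {X : Sym2 V → Ω → ℝ} {T : Ω → V → ℝ} {μ : ℝ × ℝ → ℝ}

theorem mu_pos' {Cμ : ℝ} (hμ : MuOK μ Cμ) {v : V} (hv : v ≠ 0) : 0 < at' μ v := by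
  have h1 := one_le_nrm hv
  have h2 := hμ.ge v
  linarith

/-- the rate function exists and bounds all finite-volume probabilities -/
theorem exists_rate (S : Setting Ω X T μ) {Cμ : ℝ} (hμ : MuOK μ Cμ) :
    ∃ I : V → ℝ → ℝ, ∀ v : V, v ≠ 0 → ∀ θ : ℝ, 0 < θ → θ < 1 →
      Tendsto (fun n : ℕ => -Real.log
        (((volume : Measure Ω) {ω | T ω (n • v) < (1 - θ) * at' μ (n • v)}).toReal) / n) atTop
        (𝓝 (I v θ)) ∧
      ((volume : Measure Ω) {ω | T ω v < (1 - θ) * at' μ v}).toReal ≤ Real.exp (-I v θ) := by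
  classical
  have key : ∀ v : V, v ≠ 0 → ∀ θ : ℝ, 0 < θ → θ < 1 → ∃ I : ℝ,
      Tendsto (fun n : ℕ => -Real.log
        (((volume : Measure Ω) {ω | T ω (n • v) < (1 - θ) * at' μ (n • v)}).toReal) / n) atTop
        (𝓝 I) ∧
      ((volume : Measure Ω) {ω | T ω v < (1 - θ) * at' μ v}).toReal ≤ Real.exp (-I) := by
    intro v hv θ h0 h1
    have hc : 0 < (1 - θ) * at' μ v := mul_pos (by linarith) (mu_pos' hμ hv)
    obtain ⟨I, _, h2, h3⟩ := rate_lim v hc
    refine ⟨I, ?_, ?_⟩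
    · refine h2.congr fun n => ?_
      have h4 := S.real_T_lt (n • v) ((1 - θ) * at' μ (n • v))
      rw [measureReal_def] at h4
      rw [h4, mu_nsmul hμ]
      congr 5
      ring_nf
    · have h4 := S.real_T_lt v ((1 - θ) * at' μ v)
      rw [measureReal_def] at h4
      rw [h4]
      exact h3
  choose! I hI using key
  exact ⟨I, fun v hv θ h0 h1 => hI v hv θ h0 h1⟩

/-- the large deviation bound in the form of the rate function -/
theorem rate_ge {Cμ : ℝ} (S : Setting Ω X T μ) (hμ : MuOK μ Cμ) {κ : ℝ} (hκ : 0 < κ)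
    (hL : LDB (at' μ) (1 / κ)) : ∃ c > (0 : ℝ), ∀ v : V, v ≠ 0 → ∀ θ : ℝ, 0 < θ → θ < 1 →
      ∀ I : ℝ, Tendsto (fun n : ℕ => -Real.log
        (((volume : Measure Ω) {ω | T ω (n • v) < (1 - θ) * at' μ (n • v)}).toReal) / n) atTop
        (𝓝 I) → c * θ ^ κ * nrm v ≤ I := by
  obtain ⟨A, c, hA, hc, hL⟩ := hL
  set c2 : ℝ := c * (1 / 2048) ^ κ with hc2
  have hc20 : 0 < c2 := by positivity
  refine ⟨c2, hc20, ?_⟩
  intro v hv θ h0 h1 I hI
  have hv1 := one_le_nrm hv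
  have hv0 : (0 : ℝ) < nrm v := by linarith
  have hlim : Tendsto (fun n : ℕ => c2 * θ ^ κ * nrm v - Real.log A / n) atTop
      (𝓝 (c2 * θ ^ κ * nrm v)) := by
    have h2 : Tendsto (fun n : ℕ => Real.log A / (n : ℝ)) atTop (𝓝 0) :=
      tendsto_const_div_atTop_nhds_zero_nat _
    simpa using tendsto_const_nhds.sub h2
  refine le_of_tendsto_of_tendsto hlim hI ?_
  filter_upwards [eventually_ge_atTop 1] with n hn
  have hn0 : (0 : ℝ) < n := by exact_mod_cast hn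
  have h4 := S.real_T_lt (n • v) ((1 - θ) * at' μ (n • v))
  rw [measureReal_def] at h4
  rw [h4]
  have hmu := mu_nsmul hμ n v
  have hmupos := mu_pos' hμ hv
  have hnn : nrm (n • v) = n * nrm v := nrm_nsmul n v
  have hNN : ((nrm (n • v) : ℕ) : ℝ) = n * nrm v := by rw [hnn]; push_cast; ring
  have hN1 : 1 ≤ nrm (n • v) := by
    have h5 : (1 : ℝ) ≤ ((nrm (n • v) : ℕ) : ℝ) := by
      rw [hNN]
      have : (1 : ℝ) ≤ n := by exact_mod_cast hn
      nlinarith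
    exact_mod_cast h5
  set s : ℝ := θ * at' μ (n • v) with hs
  have hs0 : 0 < s := by
    rw [hs, hmu]
    positivity
  have h6 := hL (nrm (n • v)) hN1 (n • v) le_rfl s hs0
  have h7 : at' μ (n • v) - s = (1 - θ) * at' μ (n • v) := by rw [hs]; ring
  rw [h7, hNN, one_div_one_div] at h6
  set P : ℝ := PP.real {x | Fast x Set.univ 0 (n • v) ((1 - θ) * at' μ (n • v))} with hP
  have hP0 : 0 < P := by
    apply fast_pos
    rw [hmu]
    exact mul_pos (by linarith) (mul_pos hn0 hmupos)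
  have h8 : (1 / 2048 : ℝ) ^ κ * θ ^ κ * (n * nrm v) ≤
      s ^ κ * ((n : ℝ) * nrm v) ^ (1 - κ) := by
    have h9 : θ * (1 / 2048) * (n * nrm v) ≤ s := by
      rw [hs]
      have h10 := hμ.ge (n • v)
      rw [hNN] at h10
      have := mul_le_mul_of_nonneg_left h10 h0.le
      linarith
    have h11 : (θ * (1 / 2048) * (n * nrm v)) ^ κ ≤ s ^ κ :=
      Real.rpow_le_rpow (by positivity) h9 hκ.le
    have hnv : (0 : ℝ) < n * nrm v := by positivity
    rw [Real.mul_rpow (by positivity) hnv.le, Real.mul_rpow h0.le (by norm_num)] at h11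
    calc (1 / 2048 : ℝ) ^ κ * θ ^ κ * (n * nrm v)
        = θ ^ κ * (1 / 2048 : ℝ) ^ κ * (((n : ℝ) * nrm v) ^ κ * ((n : ℝ) * nrm v) ^ (1 - κ)) := by
          rw [← Real.rpow_add hnv, add_sub_cancel, Real.rpow_one]
          ring
      _ = θ ^ κ * (1 / 2048 : ℝ) ^ κ * ((n : ℝ) * nrm v) ^ κ * ((n : ℝ) * nrm v) ^ (1 - κ) := by
          ring
      _ ≤ s ^ κ * ((n : ℝ) * nrm v) ^ (1 - κ) :=
          mul_le_mul_of_nonneg_right h11 (by positivity)
  have h12 : Real.log P ≤ Real.log A - c2 * θ ^ κ * nrm v * n := by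
    have h13 : Real.log P ≤ Real.log (A *
        Real.exp (-(c * (s ^ κ * ((n : ℝ) * nrm v) ^ (1 - κ))))) := Real.log_le_log hP0 h6
    rw [Real.log_mul hA.ne' (Real.exp_pos _).ne', Real.log_exp] at h13
    have h14 := mul_le_mul_of_nonneg_left h8 hc.le
    have h15 : c2 * θ ^ κ * nrm v * n = c * ((1 / 2048 : ℝ) ^ κ * θ ^ κ * (n * nrm v)) := by
      rw [hc2]
      ring
    rw [h15]
    linarith
  have h16 : c2 * θ ^ κ * nrm v - Real.log A / n =
      (c2 * θ ^ κ * nrm v * n - Real.log A) / n := by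
    field_simp
  rw [h16]
  apply div_le_div_of_nonneg_right _ hn0.le
  linarith

theorem scale_of_ld (S : Setting Ω X T μ) {Cμ : ℝ} (hμ : MuOK μ Cμ) {a : ℝ} (ha : 0 < a) (ha1 : a < 1)
    (H : ∀ κ, 1 / (1 - a) < κ → ∃ c > (0 : ℝ), ∀ v : V, v ≠ 0 → ∀ θ : ℝ, 0 < θ → θ < 1 →
      ((volume : Measure Ω) {ω | T ω v < (1 - θ) * at' μ v}).toReal ≤
        Real.exp (-(c * θ ^ κ * nrm v))) :
    ∀ ε > (0 : ℝ), ∃ L : ℝ, ∀ v : V, L ≤ nrm v → ∀ s : ℝ, 1 ≤ s →
      ((volume : Measure Ω) {ω | T ω v < at' μ v - s * (nrm v : ℝ) ^ (a + ε)}).toReal ≤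
        Real.exp (-s ^ (1 / (1 - a))) := by
  intro ε hε
  have h1a : 0 < 1 - a := by linarith
  set κ0 : ℝ := 1 / (1 - a) with hκ0
  have hκ00 : 0 < κ0 := by positivity
  set κ : ℝ := κ0 + κ0 * ε / 2 with hκ
  have hκκ : κ0 < κ := by
    rw [hκ]
    have : 0 < κ0 * ε := by positivity
    linarith
  have hκ1 : 0 < κ := by linarith
  obtain ⟨c, hc, hH⟩ := H κ hκκ
  have hCμ : 0 < Cμ := by linarith [hμ.one_le]
  set c' : ℝ := c * (1 / Cμ) ^ κ with hc'
  have hc'0 : 0 < c' := by positivity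
  obtain ⟨N1, hN1⟩ := eventually_atTop.1 (ge_const (show 0 < κ0 * ε / 2 by positivity) (1 / c'))
  refine ⟨((max N1 1 : ℕ) : ℝ), ?_⟩
  intro v hL s hs
  have hL' : max N1 1 ≤ nrm v := by exact_mod_cast hL
  have hvN : N1 ≤ nrm v := (le_max_left _ _).trans hL'
  have hv1' : 1 ≤ nrm v := (le_max_right _ _).trans hL'
  have hv1 : (1 : ℝ) ≤ nrm v := by exact_mod_cast hv1'
  have hv0 : (0 : ℝ) < nrm v := by linarith
  have hv : v ≠ 0 := by
    rintro rfl
    rw [nrm_zero] at hv1'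
    omega
  have hM := mu_pos' hμ hv
  set M : ℝ := at' μ v with hMd
  set n : ℝ := (nrm v : ℝ) with hn
  set θ : ℝ := s * n ^ (a + ε) / M with hθ
  have hθ0 : 0 < θ := by positivity
  rcases lt_or_ge θ 1 with hθ1 | hθ1
  · have h1 := hH v hv θ hθ0 hθ1
    have h2 : (1 - θ) * M = M - s * n ^ (a + ε) := by
      rw [hθ]
      field_simp
    rw [h2] at h1
    refine h1.trans ?_
    apply Real.exp_le_exp.2
    apply neg_le_neg
    have h3 : s * n ^ (a + ε - 1) * (1 / Cμ) ≤ θ := by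
      rw [hθ, mul_one_div, div_le_div_iff₀ hCμ hM]
      have h4 : M ≤ Cμ * n := hμ.le v
      have h5 : n ^ (a + ε - 1) * n = n ^ (a + ε) := by
        rw [← Real.rpow_add_one hv0.ne']
        congr 1
        ring
      calc s * n ^ (a + ε - 1) * M ≤ s * n ^ (a + ε - 1) * (Cμ * n) := by gcongr
        _ = s * (n ^ (a + ε - 1) * n) * Cμ := by ring
        _ = s * n ^ (a + ε) * Cμ := by rw [h5]
    have h6 : (s * n ^ (a + ε - 1) * (1 / Cμ)) ^ κ ≤ θ ^ κ :=
      Real.rpow_le_rpow (by positivity) h3 hκ1.le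
    rw [Real.mul_rpow (by positivity) (by positivity), Real.mul_rpow (by positivity)
      (by positivity), ← Real.rpow_mul hv0.le] at h6
    have h7 : s ^ κ0 ≤ s ^ κ := Real.rpow_le_rpow_of_exponent_le hs hκκ.le
    have h8 : κ0 * ε / 2 ≤ (a + ε - 1) * κ + 1 := by
      have h9 : κ0 * (1 - a) = 1 := by
        rw [hκ0]
        field_simp
      have h10 : (a + ε - 1) * κ + 1 = κ0 * ε - κ0 * ε / 2 * (1 - a) + κ0 * ε / 2 * ε := by
        rw [hκ]
        have : (a + ε - 1) * (κ0 + κ0 * ε / 2) + 1 =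
          -(κ0 * (1 - a)) + κ0 * ε - κ0 * ε / 2 * (1 - a) + κ0 * ε / 2 * ε + 1 := by ring
        rw [this, h9]
        ring
      rw [h10]
      have h11 : 0 < κ0 * ε / 2 := by positivity
      have h12 : κ0 * ε / 2 * (1 - a) = ε / 2 := by
        calc κ0 * ε / 2 * (1 - a) = κ0 * (1 - a) * (ε / 2) := by ring
          _ = ε / 2 := by rw [h9, one_mul]
      have h13 : ε ≤ κ0 * ε := by
        have hκ01 : 1 ≤ κ0 := by
          by_contra hcon
          push Not at hcon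
          nlinarith
        nlinarith
      have h14 : 0 ≤ κ0 * ε / 2 * ε := by positivity
      linarith
    have h15 : 1 / c' ≤ n ^ ((a + ε - 1) * κ + 1) :=
      (hN1 (nrm v) hvN).trans (Real.rpow_le_rpow_of_exponent_le hv1 h8)
    rw [div_le_iff₀ hc'0] at h15
    have h16 : n ^ ((a + ε - 1) * κ + 1) = n ^ ((a + ε - 1) * κ) * n :=
      Real.rpow_add_one hv0.ne' _
    rw [h16] at h15
    calc s ^ κ0 ≤ s ^ κ := h7
      _ ≤ s ^ κ * (n ^ ((a + ε - 1) * κ) * n * c') := by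
          have : 0 ≤ s ^ κ := by positivity
          nlinarith
      _ = c * (s ^ κ * n ^ ((a + ε - 1) * κ) * (1 / Cμ) ^ κ) * n := by
          rw [hc']
          ring
      _ ≤ c * θ ^ κ * n := by gcongr
  · have h1 : M ≤ s * n ^ (a + ε) := by
      rw [hθ, one_le_div hM] at hθ1
      exact hθ1
    have h2 := S.real_T_lt v (M - s * n ^ (a + ε))
    rw [measureReal_def] at h2
    rw [h2, fast_null (φ := at' μ) h1]
    exact (Real.exp_pos _).le

theorem rate_tfae (S : Setting Ω X T μ) :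
    ∃ I : V → ℝ → ℝ, (∀ v : V, v ≠ 0 → ∀ θ : ℝ, 0 < θ → θ < 1 →
      Tendsto (fun n : ℕ => -Real.log
        (((volume : Measure Ω) {ω | T ω (n • v) < (1 - θ) * at' μ (n • v)}).toReal) / n) atTop
        (𝓝 (I v θ))) ∧
    ∀ a : ℝ, 0 < a → a < 1 → List.TFAE [
      ∀ ζ, 0 < ζ → ζ < 1 - a → ∀ q > (0 : ℝ),
        (fun t : ℝ => ((volume : Measure Ω) (outerEv T μ (a - 1 + ζ) t)).toReal) =O[atTop]
          fun t => t ^ (-q),
      ∀ κ, 1 / (1 - a) < κ → ∃ c > (0 : ℝ), ∀ v : V, v ≠ 0 → ∀ θ : ℝ, 0 < θ → θ < 1 →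
        c * θ ^ κ * nrm v ≤ I v θ,
      ∀ κ, 1 / (1 - a) < κ → ∃ c > (0 : ℝ), ∀ v : V, v ≠ 0 → ∀ θ : ℝ, 0 < θ → θ < 1 →
        ((volume : Measure Ω) {ω | T ω v < (1 - θ) * at' μ v}).toReal ≤
          Real.exp (-(c * θ ^ κ * nrm v)),
      ∀ ε > (0 : ℝ), ∃ L : ℝ, ∀ v : V, L ≤ nrm v → ∀ s : ℝ, 1 ≤ s →
        ((volume : Measure Ω) {ω | T ω v < at' μ v - s * (nrm v : ℝ) ^ (a + ε)}).toReal ≤
          Real.exp (-s ^ (1 / (1 - a)))] := by
  have hP := S.prob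
  have hsaw := sawBound
  obtain ⟨Cμ, hμ⟩ := muOK S hsaw
  obtain ⟨I, hI⟩ := exists_rate S hμ
  refine ⟨I, fun v hv θ h0 h1 => (hI v hv θ h0 h1).1, ?_⟩
  intro a ha ha1
  have h1a : 0 < 1 - a := by linarith
  tfae_have 1 → 2 := by
    intro h κ hκ
    have h2 := fun ζ (h1 : 0 < ζ) (h2 : ζ < 1 - a) => h ζ h1 h2 (3 * (1 - a)) (by linarith)
    have h3 : ∀ β, a < β → β < 1 → ∃ κ > 0, HLoT (at' μ) β (2 * (1 - β) + κ) := by
      intro β g1 g2
      obtain ⟨κ, hκ, hH⟩ := hloF_of_outer S hμ a ha ha1 h2 β g1 g2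
      exact ⟨κ, hκ, hH.thin g2 (by linarith)⟩
    have h4 : ∀ β > a, SLoF (at' μ) β := loF_all hμ.subOK hsaw ha ha1 h3
    have hκ0 : 0 < κ := lt_trans (by positivity) hκ
    have h5 : LDB (at' μ) (1 / κ) := by
      apply ldb_all hμ.subOK hμ.ge hsaw ha h4 (by positivity)
      rw [div_lt_iff₀ hκ0]
      rwa [div_lt_iff₀ h1a, mul_comm] at hκ
    obtain ⟨c, hc, h6⟩ := rate_ge S hμ hκ0 h5
    exact ⟨c, hc, fun v hv θ g1 g2 => h6 v hv θ g1 g2 _ (hI v hv θ g1 g2).1⟩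
  tfae_have 2 → 3 := by
    intro h κ hκ
    obtain ⟨c, hc, h2⟩ := h κ hκ
    refine ⟨c, hc, fun v hv θ g1 g2 => (hI v hv θ g1 g2).2.trans ?_⟩
    exact Real.exp_le_exp.2 (neg_le_neg (h2 v hv θ g1 g2))
  tfae_have 3 → 4 := fun h => scale_of_ld S hμ ha ha1 h
  tfae_have 4 → 1 := by
    intro h
    apply ((outer_tfae S a ha ha1).out 2 0).1
    intro ε hε
    obtain ⟨L, hL⟩ := h (ε / 2) (by linarith)
    obtain ⟨N0, hN0⟩ := exists_nat_ge L
    have hc : 0 < ε / 2 * (1 / (1 - a)) := by positivity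
    apply pow_of_exp (f := fun v =>
      ((volume : Measure Ω) {ω | T ω v < at' μ v - (nrm v : ℝ) ^ (a + ε)}).toReal)
      (fun v => measureReal_le_one) hc (N0 := max N0 1) _ _ (by linarith)
    intro v hv
    have hv1 : (1 : ℝ) ≤ nrm v := by exact_mod_cast (le_max_right _ _).trans hv
    have hvL : L ≤ nrm v :=
      hN0.trans (by exact_mod_cast (le_max_left N0 1).trans hv)
    have h1 := hL v hvL ((nrm v : ℝ) ^ (ε / 2)) (Real.one_le_rpow hv1 (by linarith))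
    rw [← Real.rpow_add (by linarith), ← Real.rpow_mul (by linarith)] at h1
    have h2 : ε / 2 + (a + ε / 2) = a + ε := by ring
    rw [h2] at h1
    exact h1
  tfae_finish

end Pool.Agent.K4H17.FPP
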