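import Pool.Agent.K4H17.FPP.LD.Defs
import Pool.Agent.K4H17.FPP.Saw

/-!
First-passage percolation on `ℤ²`: large deviations along a chain of cells (helper32).
-/

set_option autoImplicit false
open MeasureTheory ProbabilityTheory Filter
open scoped Pointwise

namespace Pool.Agent.K4H17.FPP

theorem devAt_meas (φ : V → ℝ) (K ρ : ℕ) (s : ℝ) (w : V) : MeasurableSet (devAt φ K ρ s w) := by
  have : devAt φ K ρ s w =
      (⋃ w' : V, ({_x : W | nrm (w' - w) ≤ 3 * ρ} ∩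
        {x | Fast x (Bl w (K * ρ)) w w' (φ (w' - w) - s)})) ∪
      (⋃ w' : V, ({_x : W | nrm (w' - w) = K * ρ} ∩
        {x | Fast x (Bl w (K * ρ)) w w' (((K * ρ : ℕ) : ℝ) / 2048)})) := by
    ext x
    simp [devAt]
  rw [this]
  exact (MeasurableSet.iUnion fun w' =>
    (MeasurableSet.const _).inter (measurableSet_fast _ _ _ _)).union
    (MeasurableSet.iUnion fun w' =>
    (MeasurableSet.const _).inter (measurableSet_fast _ _ _ _))

theorem dev_meas (φ : V → ℝ) (K ρ : ℕ) (s : ℝ) (z : V) : MeasurableSet (dev φ K ρ s z) := by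
  have : dev φ K ρ s z = ⋃ w : V, ({_x : W | cell ρ w = z} ∩ devAt φ K ρ s w) := by
    ext x
    simp [dev]
  rw [this]
  exact MeasurableSet.iUnion fun w => (MeasurableSet.const _).inter (devAt_meas _ _ _ _ _)

theorem fast_transfer {u w a b : V} {R R' : ℕ} {c : ℝ} {x y : W} (hsub : Bl w R ⊆ Bl u R')
    (hxy : ∀ e ∈ edgesIn u R', x e = y e) (hf : Fast x (Bl w R) a b c) :
    Fast y (Bl w R) a b c := by
  obtain ⟨n, p, hp, hlt⟩ := hf
  refine ⟨n, p, hp, ?_⟩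
  have : cst y p n = cst x p n := by
    unfold cst
    apply Finset.sum_congr rfl
    intro i hi
    have hi' := Finset.mem_range.1 hi
    exact (hxy _ (mem_edgesIn (hsub (hp.2.2.2 i (by omega)))
      (hsub (hp.2.2.2 (i + 1) (by omega))))).symm
  rw [this]
  exact hlt

theorem dev_dep (φ : V → ℝ) (K : ℕ) {ρ : ℕ} (hρ : 1 ≤ ρ) (s : ℝ) (z : V) :
    DepOn (edgesIn (ρ • z) ((K + 2) * ρ)) (dev φ K ρ s z) := by
  rintro x y hxy ⟨w, hw, hd⟩
  have hsub : Bl w (K * ρ) ⊆ Bl (ρ • z) ((K + 2) * ρ) := by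
    apply Bl_subset
    have h1 := cell_corner hρ w
    rw [hw] at h1
    have : (K + 2) * ρ = K * ρ + 2 * ρ := by ring
    omega
  refine ⟨w, hw, ?_⟩
  rcases hd with ⟨w', h1, h2⟩ | ⟨w', h1, h2⟩
  · exact Or.inl ⟨w', h1, fast_transfer hsub hxy h2⟩
  · exact Or.inr ⟨w', h1, fast_transfer hsub hxy h2⟩

theorem devAt_real (φ : V → ℝ) (hsaw : SawBound) (K : ℕ) {ρ : ℕ} (s P : ℝ)
    (hP : ∀ w : V, nrm w ≤ 3 * ρ → PP.real {x | Fast x Set.univ 0 w (φ w - s)} ≤ P) (w : V) :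
    PP.real (devAt φ K ρ s w) ≤ (6 * (ρ : ℝ) + 1) ^ 2 * P + (1 / 4 : ℝ) ^ (K * ρ) := by
  have hP0 : 0 ≤ P := le_trans measureReal_nonneg (hP 0 (by rw [nrm_zero]; omega))
  have h1 : PP.real {x | ∃ w' : V, nrm (w' - w) ≤ 3 * ρ ∧
      Fast x Set.univ w w' (φ (w' - w) - s)} ≤ (6 * (ρ : ℝ) + 1) ^ 2 * P := by
    rw [real_ex_translate (fun v => nrm v ≤ 3 * ρ) (fun v => φ v - s) w]
    have h := real_biUnion_ball 0 (3 * ρ) (fun v => {x | Fast x Set.univ 0 v (φ v - s)}) P hP0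
      (fun v hv => hP v (by have := mem_Bl.1 hv; rwa [sub_zero] at this))
    refine le_trans (measureReal_mono ?_ (measure_ne_top _ _)) (h.trans (le_of_eq ?_))
    · rintro x ⟨v, h1, h2⟩
      exact ⟨v, mem_Bl.2 (by rwa [sub_zero]), h2⟩
    · push_cast
      ring
  have h2 : PP.real {x | ∃ w' : V, nrm (w' - w) = K * ρ ∧
      Fast x Set.univ w w' (((K * ρ : ℕ) : ℝ) / 2048)} ≤ (1 / 4 : ℝ) ^ (K * ρ) := by
    rw [real_ex_translate (fun v => nrm v = K * ρ) (fun _ => ((K * ρ : ℕ) : ℝ) / 2048) w]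
    refine le_trans (measureReal_mono ?_ (measure_ne_top _ _)) (hsaw (K * ρ))
    rintro x ⟨v, h1, h2⟩
    exact ⟨v, h1.ge, h2⟩
  refine le_trans (measureReal_mono (s₂ := {x | ∃ w' : V, nrm (w' - w) ≤ 3 * ρ ∧
      Fast x Set.univ w w' (φ (w' - w) - s)} ∪ {x | ∃ w' : V, nrm (w' - w) = K * ρ ∧
      Fast x Set.univ w w' (((K * ρ : ℕ) : ℝ) / 2048)}) ?_ (measure_ne_top _ _))
    ((measureReal_union_le _ _).trans (add_le_add h1 h2))
  rintro x (⟨w', g1, g2⟩ | ⟨w', g1, g2⟩)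
  · exact Or.inl ⟨w', g1, g2.mono (Set.subset_univ _) le_rfl⟩
  · exact Or.inr ⟨w', g1, g2.mono (Set.subset_univ _) le_rfl⟩

theorem dev_real (φ : V → ℝ) (hsaw : SawBound) (K : ℕ) {ρ : ℕ} (hρ : 1 ≤ ρ) (s P : ℝ)
    (hP : ∀ w : V, nrm w ≤ 3 * ρ → PP.real {x | Fast x Set.univ 0 w (φ w - s)} ≤ P) (z : V) :
    PP.real (dev φ K ρ s z) ≤
      (4 * (ρ : ℝ) + 1) ^ 2 * ((6 * (ρ : ℝ) + 1) ^ 2 * P + (1 / 4 : ℝ) ^ (K * ρ)) := by
  have hP0 : 0 ≤ P := le_trans measureReal_nonneg (hP 0 (by rw [nrm_zero]; omega))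
  have h := real_biUnion_ball (ρ • z) (2 * ρ) (fun w => devAt φ K ρ s w)
    ((6 * (ρ : ℝ) + 1) ^ 2 * P + (1 / 4 : ℝ) ^ (K * ρ)) (by positivity)
    (fun w _ => devAt_real φ hsaw K s P hP w)
  refine le_trans (measureReal_mono ?_ (measure_ne_top _ _)) (h.trans (le_of_eq ?_))
  · rintro x ⟨w, h1, h2⟩
    refine ⟨w, ?_, h2⟩
    have := cell_corner hρ w
    rw [h1] at this
    exact mem_Bl.2 this
  · push_cast
    ring

/-- cells of the same colour are far apart -/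
theorem col_far (m : ℕ) {z z' : V} (hne : z ≠ z') (h1 : z.1 % (m : ℤ) = z'.1 % (m : ℤ))
    (h2 : z.2 % (m : ℤ) = z'.2 % (m : ℤ)) : m ≤ nrm (z - z') := by
  have key : ∀ a b : ℤ, a % (m : ℤ) = b % (m : ℤ) → a ≠ b → m ≤ (a - b).natAbs := by
    intro a b hab hn
    have h3 : (m : ℤ) ∣ a - b := Int.ModEq.dvd (show b ≡ a [ZMOD m] from hab.symm)
    have h4 : m ∣ (a - b).natAbs := by
      have := Int.natAbs_dvd_natAbs.2 h3
      simpa using this
    exact Nat.le_of_dvd (Int.natAbs_pos.2 (sub_ne_zero.2 hn)) h4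
  have hne' : z.1 ≠ z'.1 ∨ z.2 ≠ z'.2 := by
    by_contra hcon
    push Not at hcon
    exact hne (Prod.ext hcon.1 hcon.2)
  unfold nrm
  simp only [Prod.fst_sub, Prod.snd_sub]
  rcases hne' with h | h
  · have := key _ _ h1 h
    omega
  · have := key _ _ h2 h
    omega

theorem geom_exp (J : ℕ) : ∑ j ∈ Finset.range (J + 1), Real.exp (-(j : ℝ)) ≤ 2 := by
  have h1 : ∀ j : ℕ, Real.exp (-(j : ℝ)) ≤ (1 / 2 : ℝ) ^ j := by
    intro j
    have h2 : Real.exp (-(j : ℝ)) = (Real.exp (-1)) ^ j := by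
      rw [← Real.exp_nat_mul]
      congr 1
      ring
    rw [h2]
    apply pow_le_pow_left₀ (Real.exp_pos _).le
    rw [Real.exp_neg]
    have := Real.add_one_le_exp (1 : ℝ)
    rw [one_div]
    apply inv_anti₀ (by norm_num)
    linarith
  refine (Finset.sum_le_sum fun j _ => h1 j).trans ?_
  have h3 : ∀ n : ℕ, ∑ j ∈ Finset.range n, (1 / 2 : ℝ) ^ j = 2 - 2 * (1 / 2) ^ n := by
    intro n
    induction n with
    | zero => simp
    | succ n ih =>
      rw [Finset.sum_range_succ, ih, pow_succ]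
      ring
  rw [h3]
  have : (0 : ℝ) < 2 * (1 / 2) ^ (J + 1) := by positivity
  linarith

/-- independent events with levels -/
theorem levels_indep {ι : Type} [DecidableEq ι] [Fintype ι] (A : ι → ℕ → Set W)
    (E : ι → Finset (Sym2 V)) (hm : ∀ i j, MeasurableSet (A i j)) (hE : ∀ i j, DepOn (E i) (A i j))
    (hd : ∀ i j, i ≠ j → Disjoint (E i) (E j)) (κ : ℝ) (J : ℕ)
    (hp : ∀ i, ∀ j : ℕ, 1 ≤ j → j ≤ J → PP.real (A i j) ≤ Real.exp (-((κ + 1) * j))) (t : ℝ) :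
    PP.real {x | ∃ c : ι → ℕ, (∀ i, c i ≤ J ∧ (c i ≠ 0 → x ∈ A i (c i))) ∧
      t ≤ κ * ∑ i, (c i : ℝ)} ≤ 2 ^ Fintype.card ι * Real.exp (-t) := by
  classical
  set C : Finset (ι → ℕ) := (Fintype.piFinset fun _ : ι => Finset.range (J + 1)).filter
    (fun c => t ≤ κ * ∑ i, (c i : ℝ)) with hC
  have hsub : {x : W | ∃ c : ι → ℕ, (∀ i, c i ≤ J ∧ (c i ≠ 0 → x ∈ A i (c i))) ∧
      t ≤ κ * ∑ i, (c i : ℝ)} ⊆
      ⋃ c ∈ C, ⋂ i ∈ Finset.univ.filter (fun i => c i ≠ 0), A i (c i) := by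
    rintro x ⟨c, h1, h2⟩
    simp only [Set.mem_iUnion, Set.mem_iInter]
    refine ⟨c, ?_, fun i hi => (h1 i).2 (Finset.mem_filter.1 hi).2⟩
    rw [hC, Finset.mem_filter, Fintype.mem_piFinset]
    exact ⟨fun i => Finset.mem_range.2 (by have := (h1 i).1; omega), h2⟩
  refine (measureReal_mono hsub (measure_ne_top _ _)).trans
    ((measureReal_biUnion_finset_le _ _).trans ?_)
  have hone : ∀ c ∈ C, PP.real (⋂ i ∈ Finset.univ.filter (fun i => c i ≠ 0), A i (c i)) ≤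
      Real.exp (-t) * ∏ i, Real.exp (-(c i : ℝ)) := by
    intro c hc
    rw [hC, Finset.mem_filter, Fintype.mem_piFinset] at hc
    rw [measureReal_def, indep_inter (fun i => A i (c i)) E _ (fun i _ => hm _ _)
      (fun i _ => hE _ _) (fun i _ j _ hij => hd i j hij), ENNReal.toReal_prod]
    have h3 : ∏ i ∈ Finset.univ.filter (fun i => c i ≠ 0), (PP (A i (c i))).toReal ≤
        ∏ i ∈ Finset.univ.filter (fun i => c i ≠ 0), Real.exp (-((κ + 1) * (c i : ℝ))) := by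
      apply Finset.prod_le_prod (fun _ _ => ENNReal.toReal_nonneg)
      intro i hi
      have h4 := (Finset.mem_filter.1 hi).2
      have h5 := Finset.mem_range.1 (hc.1 i)
      exact hp i (c i) (by omega) (by omega)
    refine h3.trans ?_
    rw [← Real.exp_sum, ← Real.exp_sum, ← Real.exp_add]
    apply Real.exp_le_exp.2
    have h6 : ∑ i ∈ Finset.univ.filter (fun i => c i ≠ 0), -((κ + 1) * (c i : ℝ)) =
        ∑ i, -((κ + 1) * (c i : ℝ)) := by
      apply Finset.sum_filter_of_ne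
      intro i _ hi h0
      apply hi
      rw [h0]
      simp
    rw [h6, Finset.sum_neg_distrib, Finset.sum_neg_distrib, ← Finset.mul_sum]
    have h7 := hc.2
    linarith
  refine (Finset.sum_le_sum hone).trans ?_
  rw [← Finset.mul_sum, mul_comm]
  apply mul_le_mul_of_nonneg_right _ (Real.exp_pos _).le
  have h8 : ∑ c ∈ C, ∏ i, Real.exp (-(c i : ℝ)) ≤
      ∑ c ∈ Fintype.piFinset (fun _ : ι => Finset.range (J + 1)),
        ∏ i, Real.exp (-(c i : ℝ)) := by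
    apply Finset.sum_le_sum_of_subset_of_nonneg (Finset.filter_subset _ _)
    intro c _ _
    exact Finset.prod_nonneg fun i _ => (Real.exp_pos _).le
  refine h8.trans ?_
  have h9 := Finset.prod_univ_sum (fun _ : ι => Finset.range (J + 1))
    (fun (_ : ι) (j : ℕ) => Real.exp (-(j : ℝ)))
  rw [← h9, Finset.prod_const, Finset.card_univ]
  exact pow_le_pow_left₀ (Finset.sum_nonneg fun _ _ => (Real.exp_pos _).le) (geom_exp J) _

/-- one chain of cells -/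
theorem ld_chain (φ : V → ℝ) (K : ℕ) {ρ : ℕ} (hρ : 1 ≤ ρ) (h : ℝ) (J : ℕ)
    (hdev : ∀ j : ℕ, 1 ≤ j → j ≤ J → ∀ z : V,
      PP.real (dev φ K ρ ((j : ℝ) * h) z) ≤ Real.exp (-(((2 * K + 5) ^ 2 + 1) * j)))
    (q : ℕ) (t : ℝ) (z : ℕ → V) (hz : ∀ i j, i < j → j < q → z i ≠ z j) :
    PP.real {x | ∃ b : ℕ → ℕ, (∀ i < q, b i ≤ J ∧ (b i ≠ 0 → x ∈ dev φ K ρ ((b i : ℝ) * h) (z i))) ∧
      t ≤ ∑ i ∈ Finset.range q, (b i : ℝ)} ≤
      (2 * K + 5) ^ 2 * (2 ^ q * Real.exp (-t)) := by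
  classical
  set m : ℕ := 2 * K + 5 with hm
  set κ : ℝ := (2 * (K : ℝ) + 5) ^ 2 with hκ
  have hκm : κ = ((m ^ 2 : ℕ) : ℝ) := by rw [hκ, hm]; push_cast; ring
  set Ks : Finset (ℤ × ℤ) := Finset.Ico (0 : ℤ) m ×ˢ Finset.Ico (0 : ℤ) m with hKs
  have hKc : (Ks.card : ℝ) = κ := by
    rw [hKs, Finset.card_product, Int.card_Ico, hκm]
    simp [pow_two]
  have hm0 : (0 : ℤ) < m := by omega
  set col : ℕ → ℤ × ℤ := fun i => ((z i).1 % m, (z i).2 % m) with hcol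
  have hcolK : ∀ i, col i ∈ Ks := by
    intro i
    rw [hKs, Finset.mem_product, Finset.mem_Ico, Finset.mem_Ico]
    exact ⟨⟨Int.emod_nonneg _ (by omega), Int.emod_lt_of_pos _ hm0⟩,
      ⟨Int.emod_nonneg _ (by omega), Int.emod_lt_of_pos _ hm0⟩⟩
  set I : ℤ × ℤ → Finset ℕ := fun k => (Finset.range q).filter (fun i => col i = k) with hI
  have hκ0 : 0 < κ := by rw [hκ]; positivity
  have hsub : {x : W | ∃ b : ℕ → ℕ, (∀ i < q, b i ≤ J ∧
      (b i ≠ 0 → x ∈ dev φ K ρ ((b i : ℝ) * h) (z i))) ∧ t ≤ ∑ i ∈ Finset.range q, (b i : ℝ)} ⊆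
      ⋃ k ∈ Ks, {x : W | ∃ c : I k → ℕ, (∀ i, c i ≤ J ∧
        (c i ≠ 0 → x ∈ dev φ K ρ ((c i : ℝ) * h) (z i))) ∧ t ≤ κ * ∑ i, (c i : ℝ)} := by
    rintro x ⟨b, h1, h2⟩
    have h3 : ∑ i ∈ Finset.range q, (b i : ℝ) = ∑ k ∈ Ks, ∑ i ∈ I k, (b i : ℝ) :=
      (Finset.sum_fiberwise_of_maps_to (fun i _ => hcolK i) _).symm
    have h4 : ∃ k ∈ Ks, t ≤ κ * ∑ i ∈ I k, (b i : ℝ) := by
      by_contra hcon
      push Not at hcon
      have hne : Ks.Nonempty := ⟨col 0, hcolK 0⟩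
      have h5 := Finset.sum_lt_sum_of_nonempty hne hcon
      rw [← Finset.mul_sum, ← h3, Finset.sum_const, nsmul_eq_mul, hKc] at h5
      have h6 := lt_of_mul_lt_mul_left h5 hκ0.le
      linarith
    obtain ⟨k, hk, h5⟩ := h4
    simp only [Set.mem_iUnion]
    refine ⟨k, hk, fun i => b i, fun i => h1 i ?_, ?_⟩
    · exact Finset.mem_range.1 (Finset.mem_filter.1 i.2).1
    · rw [Finset.sum_coe_sort (I k) (fun i => (b i : ℝ))]
      exact h5
  refine (measureReal_mono hsub (measure_ne_top _ _)).trans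
    ((measureReal_biUnion_finset_le _ _).trans ?_)
  have hk : ∀ k ∈ Ks, PP.real {x : W | ∃ c : I k → ℕ, (∀ i, c i ≤ J ∧
        (c i ≠ 0 → x ∈ dev φ K ρ ((c i : ℝ) * h) (z i))) ∧ t ≤ κ * ∑ i, (c i : ℝ)} ≤
      2 ^ q * Real.exp (-t) := by
    intro k _
    have h1 := levels_indep (ι := I k) (fun i j => dev φ K ρ ((j : ℝ) * h) (z i))
      (fun i => edgesIn (ρ • z i) ((K + 2) * ρ)) (fun i j => dev_meas _ _ _ _ _)
      (fun i j => dev_dep φ K hρ _ _) ?_ κ J (fun i j hj1 hj2 => hdev j hj1 hj2 (z i)) t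
    · refine h1.trans (mul_le_mul_of_nonneg_right ?_ (Real.exp_pos _).le)
      apply pow_le_pow_right₀ (by norm_num)
      rw [Fintype.card_coe]
      exact (Finset.card_filter_le _ _).trans (by rw [Finset.card_range])
    · intro i j hij
      apply edgesIn_disjoint
      have hi := Finset.mem_filter.1 i.2
      have hj := Finset.mem_filter.1 j.2
      have hc : col i = col j := hi.2.trans hj.2.symm
      rw [hcol, Prod.mk.injEq] at hc
      have hne : z i ≠ z j := by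
        have hij' : (i : ℕ) ≠ j := fun hh => hij (Subtype.ext hh)
        rcases Nat.lt_or_gt_of_ne hij' with hl | hl
        · exact hz _ _ hl (Finset.mem_range.1 hj.1)
        · exact (hz _ _ hl (Finset.mem_range.1 hi.1)).symm
      have h3 := col_far m hne hc.1 hc.2
      have h4 : nrm (ρ • z i - ρ • z j) = ρ * nrm (z i - z j) := by rw [← smul_sub, nrm_nsmul]
      rw [h4]
      have h5 : ρ * m ≤ ρ * nrm (z i - z j) := Nat.mul_le_mul_left ρ h3
      have h6 : ρ * m = (K + 2) * ρ + (K + 2) * ρ + ρ := by rw [hm]; ring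
      omega
  refine (Finset.sum_le_sum hk).trans ?_
  rw [Finset.sum_const, nsmul_eq_mul, hKc]

theorem ld_path (φ : V → ℝ) (K : ℕ) {ρ : ℕ} (hρ : 1 ≤ ρ) (h : ℝ) (J : ℕ)
    (hdev : ∀ j : ℕ, 1 ≤ j → j ≤ J → ∀ z : V,
      PP.real (dev φ K ρ ((j : ℝ) * h) z) ≤ Real.exp (-(((2 * K + 5) ^ 2 + 1) * j)))
    (q : ℕ) (t : ℝ) :
    PP.real {x | ∃ z b, Lev φ K ρ h J q x z b ∧ t ≤ ∑ i ∈ Finset.range q, (b i : ℝ)} ≤
      (2 * K + 5) ^ 2 * (242 : ℝ) ^ q * Real.exp (-t) := by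
  classical
  set B5 : Finset V := (ball_finite 0 5).toFinset with hB5
  have hB5c : B5.card ≤ 121 := by
    have h1 := ball_ncard_le 0 5
    rw [Set.ncard_eq_toFinset_card _ (ball_finite 0 5)] at h1
    exact h1
  set D : Finset (Fin (q - 1) → V) := (Fintype.piFinset fun _ : Fin (q - 1) => B5).filter
    (fun d => ∀ i j : ℕ, i < j → j < q → dpath d i ≠ dpath d j) with hD
  have hDc : (D.card : ℝ) ≤ 121 ^ q := by
    have h1 : D.card ≤ 121 ^ (q - 1) := by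
      refine (Finset.card_filter_le _ _).trans ?_
      rw [Fintype.card_piFinset, Finset.prod_const, Finset.card_univ, Fintype.card_fin]
      exact Nat.pow_le_pow_left hB5c _
    have h2 : 121 ^ (q - 1) ≤ 121 ^ q := Nat.pow_le_pow_right (by norm_num) (by omega)
    exact_mod_cast h1.trans h2
  have hsub : {x : W | ∃ z b, Lev φ K ρ h J q x z b ∧ t ≤ ∑ i ∈ Finset.range q, (b i : ℝ)} ⊆
      ⋃ d ∈ D, {x : W | ∃ b : ℕ → ℕ, (∀ i < q, b i ≤ J ∧
        (b i ≠ 0 → x ∈ dev φ K ρ ((b i : ℝ) * h) (dpath d i))) ∧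
        t ≤ ∑ i ∈ Finset.range q, (b i : ℝ)} := by
    rintro x ⟨z, b, ⟨h0, h1, h2, h3⟩, ht⟩
    set d : Fin (q - 1) → V := fun j => z ((j : ℕ) + 1) - z j with hd
    have hdp : ∀ i ≤ q - 1, dpath d i = z i := dpath_eq h0
    simp only [Set.mem_iUnion]
    refine ⟨d, ?_, b, ?_, ht⟩
    · rw [hD, Finset.mem_filter, Fintype.mem_piFinset]
      refine ⟨fun i => ?_, fun i j hij hj => ?_⟩
      · rw [hB5]
        have hi := i.2
        have := h1 i (by omega)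
        simpa [mem_Bl] using this
      · rw [hdp i (by omega), hdp j (by omega)]
        exact h2 i j hij hj
    · intro i hi
      rw [hdp i (by omega)]
      exact h3 i hi
  refine (measureReal_mono hsub (measure_ne_top _ _)).trans
    ((measureReal_biUnion_finset_le _ _).trans ?_)
  have hone : ∀ d ∈ D, PP.real {x : W | ∃ b : ℕ → ℕ, (∀ i < q, b i ≤ J ∧
        (b i ≠ 0 → x ∈ dev φ K ρ ((b i : ℝ) * h) (dpath d i))) ∧
        t ≤ ∑ i ∈ Finset.range q, (b i : ℝ)} ≤ (2 * K + 5) ^ 2 * (2 ^ q * Real.exp (-t)) := by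
    intro d hd
    rw [hD, Finset.mem_filter] at hd
    exact ld_chain φ K hρ h J hdev q t (dpath d) hd.2
  refine (Finset.sum_le_sum hone).trans ?_
  rw [Finset.sum_const, nsmul_eq_mul]
  have h1 : (242 : ℝ) ^ q = 121 ^ q * 2 ^ q := by rw [← mul_pow]; norm_num
  rw [h1]
  calc (D.card : ℝ) * ((2 * K + 5) ^ 2 * (2 ^ q * Real.exp (-t)))
      ≤ 121 ^ q * ((2 * K + 5) ^ 2 * (2 ^ q * Real.exp (-t))) :=
        mul_le_mul_of_nonneg_right hDc (by positivity)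
    _ = (2 * K + 5) ^ 2 * (121 ^ q * 2 ^ q) * Real.exp (-t) := by ring

end Pool.Agent.K4H17.FPP
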