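import Pool.Agent.K4H17.FPP.LD.Skel
import Pool.Agent.K4H17.FPP.LD.Path
import Pool.Agent.K4H17.FPP.LoFStep

/-!
First-passage percolation on `ℤ²`: large deviations of the lower tail, one scale.
-/

set_option autoImplicit false
open MeasureTheory ProbabilityTheory Filter
open scoped Pointwise

namespace Pool.Agent.K4H17.FPP

theorem exp_num (q : ℕ) : (242 : ℝ) ^ q * Real.exp q ≤ Real.exp (7 * q) := by
  have h1 : (242 : ℝ) * Real.exp 1 ≤ Real.exp 7 := by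
    have h2 : Real.exp 7 = Real.exp 1 ^ 6 * Real.exp 1 := by
      rw [← Real.exp_nat_mul, ← Real.exp_add]
      norm_num
    rw [h2]
    apply mul_le_mul_of_nonneg_right _ (Real.exp_pos _).le
    have h3 : (2.7 : ℝ) ≤ Real.exp 1 := by linarith [Real.exp_one_gt_d9]
    calc (242 : ℝ) ≤ (2.7 : ℝ) ^ 6 := by norm_num
      _ ≤ Real.exp 1 ^ 6 := pow_le_pow_left₀ (by norm_num) h3 6
  calc (242 : ℝ) ^ q * Real.exp q = (242 * Real.exp 1) ^ q := by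
        rw [mul_pow, ← Real.exp_nat_mul, mul_one]
    _ ≤ (Real.exp 7) ^ q := pow_le_pow_left₀ (by positivity) h1 q
    _ = Real.exp (7 * q) := by rw [← Real.exp_nat_mul]; ring_nf

theorem ld_core {φ : V → ℝ} {C : ℝ} (hφ : SubOK φ C) (hge : ∀ v : V, (nrm v : ℝ) / 2048 ≤ φ v)
    (K : ℕ) (hK : 6144 * C ≤ K) (v : V) {ρ : ℕ} (hρ : 1 ≤ ρ)
    (h : ℝ) (hh : 0 < h) (J : ℕ) (hJ : 3 * C * ρ ≤ (J + 1) * h)
    (hdev : ∀ j : ℕ, 1 ≤ j → j ≤ J → ∀ z : V,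
      PP.real (dev φ K ρ ((j : ℝ) * h) z) ≤ Real.exp (-(((2 * K + 5) ^ 2 + 1) * j)))
    (m : ℕ) (hm : 1 ≤ m) (hm2 : 4096 * φ v ≤ m * (2 * ρ + 1)) (E : ℝ) :
    PP.real {x | Fast x Set.univ 0 v (φ v - E)} ≤
      (2 * K + 5) ^ 2 * Real.exp (8 * m - E / h) := by
  set Ev : ℕ → Set W := fun q =>
    {x | ∃ z b, Lev φ K ρ h J q x z b ∧ E / h - q ≤ ∑ i ∈ Finset.range q, (b i : ℝ)} with hEv
  have h1 : PP {x | Fast x Set.univ 0 v (φ v - E)} ≤ PP (⋃ q ∈ Finset.Icc 1 m, Ev q) := by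
    apply measure_mono_ae
    filter_upwards [nonneg_ae] with x hx hf
    obtain ⟨q, h1, h2, z, b, hl, hE⟩ := skel_det hφ hge K hK hx v ρ hρ h hh J hJ m hm hm2 E hf
    show x ∈ ⋃ q ∈ Finset.Icc 1 m, Ev q
    rw [Set.mem_iUnion₂]
    refine ⟨q, Finset.mem_Icc.2 ⟨h1, h2⟩, z, b, hl, ?_⟩
    rw [Finset.sum_add_distrib, Finset.sum_const, Finset.card_range, nsmul_eq_mul, mul_one] at hE
    rw [sub_le_iff_le_add, div_le_iff₀ hh]
    linarith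
  have h2 : PP.real {x | Fast x Set.univ 0 v (φ v - E)} ≤ PP.real (⋃ q ∈ Finset.Icc 1 m, Ev q) :=
    ENNReal.toReal_mono (measure_ne_top _ _) h1
  have h3 : PP.real (⋃ q ∈ Finset.Icc 1 m, Ev q) ≤ ∑ q ∈ Finset.Icc 1 m, PP.real (Ev q) :=
    measureReal_biUnion_finset_le _ _
  have h4 : ∀ q ∈ Finset.Icc 1 m, PP.real (Ev q) ≤
      (2 * K + 5) ^ 2 * Real.exp (7 * m - E / h) := by
    intro q hq
    have hq' := (Finset.mem_Icc.1 hq).2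
    have h5 := ld_path φ K hρ h J hdev q (E / h - q)
    refine h5.trans ?_
    rw [mul_assoc]
    apply mul_le_mul_of_nonneg_left _ (by positivity)
    have h6 : Real.exp (-(E / h - q)) = Real.exp q * Real.exp (-(E / h)) := by
      rw [← Real.exp_add]
      ring_nf
    rw [h6, ← mul_assoc]
    refine (mul_le_mul_of_nonneg_right (exp_num q) (Real.exp_pos _).le).trans ?_
    rw [← Real.exp_add]
    apply Real.exp_le_exp.2
    have : (q : ℝ) ≤ m := by exact_mod_cast hq'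
    linarith
  have h5 : ∑ q ∈ Finset.Icc 1 m, PP.real (Ev q) ≤
      m * ((2 * K + 5) ^ 2 * Real.exp (7 * m - E / h)) := by
    refine (Finset.sum_le_sum h4).trans ?_
    rw [Finset.sum_const, nsmul_eq_mul, Nat.card_Icc]
    simp
  have h6 : (m : ℝ) ≤ Real.exp m := by linarith [Real.add_one_le_exp (m : ℝ)]
  calc PP.real {x | Fast x Set.univ 0 v (φ v - E)}
      ≤ m * ((2 * K + 5) ^ 2 * Real.exp (7 * m - E / h)) := h2.trans (h3.trans h5)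
    _ ≤ Real.exp m * ((2 * K + 5) ^ 2 * Real.exp (7 * m - E / h)) :=
        mul_le_mul_of_nonneg_right h6 (by positivity)
    _ = (2 * K + 5) ^ 2 * (Real.exp m * Real.exp (7 * m - E / h)) := by ring
    _ = (2 * K + 5) ^ 2 * Real.exp (8 * m - E / h) := by
        rw [← Real.exp_add]
        ring_nf

/-- tail bounds at scale `ρ`, for all deviations between `ρ ^ (1 - r)` and the maximum -/
def Tail (φ : V → ℝ) (C r : ℝ) : Prop :=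
  ∃ δ > (0 : ℝ), ∃ ρ0 : ℕ, ∀ ρ ≥ ρ0, ∀ w : V, nrm w ≤ 3 * ρ → ∀ s : ℝ,
    (ρ : ℝ) ^ (1 - r) ≤ s → s ≤ 3 * C * ρ →
    PP.real {x | Fast x Set.univ 0 w (φ w - s)} ≤
      Real.exp (-((ρ : ℝ) ^ δ * (s * (ρ : ℝ) ^ (r - 1))))

theorem dev_tail {φ : V → ℝ} {C : ℝ} (hC : 1 ≤ C) (hsaw : SawBound) (K : ℕ) (hK : 1 ≤ K)
    {r : ℝ} (hr : 0 < r) (hr1 : r < 1) (hT : Tail φ C r) :
    ∀ᶠ ρ : ℕ in atTop, ∀ j : ℕ, 1 ≤ j → (j : ℝ) * (ρ : ℝ) ^ (1 - r) ≤ 3 * C * ρ → ∀ z : V,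
      PP.real (dev φ K ρ ((j : ℝ) * (ρ : ℝ) ^ (1 - r)) z) ≤
        Real.exp (-(((2 * K + 5) ^ 2 + 1) * j)) := by
  obtain ⟨δ, hδ, ρ0, hT⟩ := hT
  set κ : ℝ := (2 * (K : ℝ) + 5) ^ 2 + 1 with hκ
  have hκ0 : 0 < κ := by positivity
  filter_upwards [eventually_ge_atTop ρ0, eventually_ge_atTop 4, ge_const hδ κ,
    poly_le_exp hδ 4 (2450 * Real.exp κ), pow_lt hr1 (6 * C * κ),
    poly_le_exp (show (0 : ℝ) < 1 / 2 by norm_num) 2 50,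
    pow_lt (show (1 / 2 : ℝ) < 1 by norm_num) 2] with ρ g0 g1 g2 g3 g4 g5 g6 j hj1 hj2 z
  have hρ0 : (0 : ℝ) < ρ := by
    have : 0 < ρ := by omega
    exact_mod_cast this
  have hρ1 : (1 : ℝ) ≤ ρ := by
    have : 1 ≤ ρ := by omega
    exact_mod_cast this
  have hj : (1 : ℝ) ≤ j := by exact_mod_cast hj1
  have hh0 : 0 < (ρ : ℝ) ^ (1 - r) := by positivity
  have hsj : (j : ℝ) * (ρ : ℝ) ^ (1 - r) * (ρ : ℝ) ^ (r - 1) = j := by
    rw [mul_assoc, ← Real.rpow_add hρ0]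
    simp
  have hP : ∀ w : V, nrm w ≤ 3 * ρ →
      PP.real {x | Fast x Set.univ 0 w (φ w - (j : ℝ) * (ρ : ℝ) ^ (1 - r))} ≤
        Real.exp (-((ρ : ℝ) ^ δ * j)) := by
    intro w hw
    have := hT ρ g0 w hw ((j : ℝ) * (ρ : ℝ) ^ (1 - r)) (by nlinarith) hj2
    rwa [hsj] at this
  have h1 := dev_real φ hsaw K (show 1 ≤ ρ by omega) _ _ hP z
  refine h1.trans ?_
  -- first term
  have t1 : (4 * (ρ : ℝ) + 1) ^ 2 * ((6 * (ρ : ℝ) + 1) ^ 2 * Real.exp (-((ρ : ℝ) ^ δ * j))) ≤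
      Real.exp (-(κ * j)) / 2 := by
    have a1 : (4 * (ρ : ℝ) + 1) ^ 2 * (6 * (ρ : ℝ) + 1) ^ 2 ≤ 1225 * (ρ : ℝ) ^ (4 : ℝ) := by
      have e1 : (4 * (ρ : ℝ) + 1) ^ 2 ≤ (5 * ρ) ^ 2 :=
        pow_le_pow_left₀ (by positivity) (by linarith) 2
      have e2 : (6 * (ρ : ℝ) + 1) ^ 2 ≤ (7 * ρ) ^ 2 :=
        pow_le_pow_left₀ (by positivity) (by linarith) 2
      calc (4 * (ρ : ℝ) + 1) ^ 2 * (6 * (ρ : ℝ) + 1) ^ 2 ≤ (5 * ρ) ^ 2 * (7 * ρ) ^ 2 :=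
            mul_le_mul e1 e2 (by positivity) (by positivity)
        _ = 1225 * (ρ : ℝ) ^ (4 : ℝ) := by
            rw [show (4 : ℝ) = ((4 : ℕ) : ℝ) by norm_num, Real.rpow_natCast]
            ring
    have a2 : Real.exp (-((ρ : ℝ) ^ δ * j)) ≤
        Real.exp (-(κ * j)) * (Real.exp κ * Real.exp (-(ρ : ℝ) ^ δ)) := by
      rw [← Real.exp_add, ← Real.exp_add]
      apply Real.exp_le_exp.2
      nlinarith
    have a3 : 1225 * (ρ : ℝ) ^ (4 : ℝ) * (Real.exp κ * Real.exp (-(ρ : ℝ) ^ δ)) ≤ 1 / 2 := by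
      rw [Real.exp_neg]
      have h5 := Real.exp_pos ((ρ : ℝ) ^ δ)
      rw [← mul_assoc, ← div_eq_mul_inv, div_le_iff₀ h5]
      linarith
    calc (4 * (ρ : ℝ) + 1) ^ 2 * ((6 * (ρ : ℝ) + 1) ^ 2 * Real.exp (-((ρ : ℝ) ^ δ * j)))
        = (4 * (ρ : ℝ) + 1) ^ 2 * (6 * (ρ : ℝ) + 1) ^ 2 * Real.exp (-((ρ : ℝ) ^ δ * j)) := by ring
      _ ≤ 1225 * (ρ : ℝ) ^ (4 : ℝ) *
          (Real.exp (-(κ * j)) * (Real.exp κ * Real.exp (-(ρ : ℝ) ^ δ))) :=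
          mul_le_mul a1 a2 (Real.exp_pos _).le (by positivity)
      _ = (1225 * (ρ : ℝ) ^ (4 : ℝ) * (Real.exp κ * Real.exp (-(ρ : ℝ) ^ δ))) *
          Real.exp (-(κ * j)) := by ring
      _ ≤ 1 / 2 * Real.exp (-(κ * j)) := mul_le_mul_of_nonneg_right a3 (Real.exp_pos _).le
      _ = Real.exp (-(κ * j)) / 2 := by ring
  -- second term
  have t2 : (4 * (ρ : ℝ) + 1) ^ 2 * (1 / 4 : ℝ) ^ (K * ρ) ≤ Real.exp (-(κ * j)) / 2 := by
    have e1 : (4 * (ρ : ℝ) + 1) ^ 2 ≤ 25 * (ρ : ℝ) ^ (2 : ℝ) := by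
      calc (4 * (ρ : ℝ) + 1) ^ 2 ≤ (5 * ρ) ^ 2 :=
            pow_le_pow_left₀ (by positivity) (by linarith) 2
        _ = 25 * (ρ : ℝ) ^ (2 : ℝ) := by
            rw [show (2 : ℝ) = ((2 : ℕ) : ℝ) by norm_num, Real.rpow_natCast]
            ring
    have e2 : (1 / 4 : ℝ) ^ (K * ρ) ≤ Real.exp (-(ρ : ℝ)) := by
      refine le_trans ?_ (quarter_pow_le ρ)
      apply pow_le_pow_of_le_one (by norm_num) (by norm_num)
      nlinarith
    have e3 : (ρ : ℝ) ^ (1 / 2 : ℝ) ≤ ρ / 2 := by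
      rw [Real.rpow_one] at g6
      linarith
    have e4 : 50 * (ρ : ℝ) ^ (2 : ℝ) ≤ Real.exp (ρ / 2) :=
      g5.trans (Real.exp_le_exp.2 e3)
    have e5 : κ * j ≤ ρ / 2 := by
      rw [Real.rpow_one] at g4
      have e6 : (j : ℝ) ≤ 3 * C * (ρ : ℝ) ^ r := by
        have e7 : (j : ℝ) * (ρ : ℝ) ^ (1 - r) * (ρ : ℝ) ^ (r - 1) ≤
            3 * C * ρ * (ρ : ℝ) ^ (r - 1) :=
          mul_le_mul_of_nonneg_right hj2 (by positivity)
        rw [hsj] at e7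
        refine e7.trans (le_of_eq ?_)
        have e8 : (ρ : ℝ) ^ r = ρ * (ρ : ℝ) ^ (r - 1) := by
          rw [← Real.rpow_one_add' hρ0.le (by linarith)]
          congr 1
          ring
        rw [e8]
        ring
      nlinarith
    calc (4 * (ρ : ℝ) + 1) ^ 2 * (1 / 4 : ℝ) ^ (K * ρ)
        ≤ 25 * (ρ : ℝ) ^ (2 : ℝ) * Real.exp (-(ρ : ℝ)) :=
          mul_le_mul e1 e2 (by positivity) (by positivity)
      _ ≤ Real.exp (ρ / 2) / 2 * Real.exp (-(ρ : ℝ)) :=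
          mul_le_mul_of_nonneg_right (by linarith) (Real.exp_pos _).le
      _ = Real.exp (-(ρ / 2 : ℝ)) / 2 := by
          rw [div_mul_eq_mul_div, ← Real.exp_add]
          ring_nf
      _ ≤ Real.exp (-(κ * j)) / 2 := by
          have := Real.exp_le_exp.2 (show -(ρ / 2 : ℝ) ≤ -(κ * j) by linarith)
          linarith
  rw [mul_add]
  linarith

end Pool.Agent.K4H17.FPP
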