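import Pool.Agent.K4H17.FPP.LoF

/-!
First-passage percolation on `ℤ²`: large deviations of the lower tail, definitions.
-/

set_option autoImplicit false
open MeasureTheory ProbabilityTheory Filter
open scoped Pointwise

namespace Pool.Agent.K4H17.FPP

/-- local deviation event at `w`, at scale `ρ`: some `w'` with `|w' - w| ≤ 3 ρ` is reached from `w`
inside the ball of radius `K ρ` in time less than `φ (w' - w) - s`, or the boundary of this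
ball is reached in time less than `K ρ / 2048` -/
def devAt (φ : V → ℝ) (K ρ : ℕ) (s : ℝ) (w : V) : Set W :=
  {x | (∃ w' : V, nrm (w' - w) ≤ 3 * ρ ∧ Fast x (Bl w (K * ρ)) w w' (φ (w' - w) - s)) ∨
    (∃ w' : V, nrm (w' - w) = K * ρ ∧ Fast x (Bl w (K * ρ)) w w' (((K * ρ : ℕ) : ℝ) / 2048))}

/-- deviation event of the cell `z` -/
def dev (φ : V → ℝ) (K ρ : ℕ) (s : ℝ) (z : V) : Set W :=
  {x | ∃ w : V, cell ρ w = z ∧ x ∈ devAt φ K ρ s w}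

/-- last-exit skeleton of the path `p 0, …, p n` at scale `2 ρ` -/
def Skel (p : ℕ → V) (n ρ k : ℕ) (τ : ℕ → ℕ) : Prop :=
  τ 0 = 0 ∧ (∀ i < k, τ i < τ (i + 1)) ∧ τ k ≤ n ∧
    (∀ i < k, nrm (p (τ (i + 1)) - p (τ i)) = 2 * ρ + 1) ∧
    nrm (p n - p (τ k)) ≤ 2 * ρ ∧
    (∀ i j, i < j → j ≤ k → 2 * ρ + 1 ≤ nrm (p (τ j) - p (τ i)))

/-- self-avoiding chain of `q` cells starting at `0`, with levels `b i ≤ J` -/
def Lev (φ : V → ℝ) (K ρ : ℕ) (h : ℝ) (J q : ℕ) (x : W) (z : ℕ → V) (b : ℕ → ℕ) : Prop :=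
  z 0 = 0 ∧ (∀ i, i + 1 < q → nrm (z (i + 1) - z i) ≤ 5) ∧ (∀ i j, i < j → j < q → z i ≠ z j) ∧
    ∀ i < q, b i ≤ J ∧ (b i ≠ 0 → x ∈ dev φ K ρ ((b i : ℝ) * h) (z i))

/-- stretched lower-tail large deviation bound with exponent `1 / r` -/
def LDB (φ : V → ℝ) (r : ℝ) : Prop :=
  ∃ A c : ℝ, 0 < A ∧ 0 < c ∧ ∀ N : ℕ, 1 ≤ N → ∀ v : V, nrm v ≤ N → ∀ s : ℝ, 0 < s →
    PP.real {x | Fast x Set.univ 0 v (φ v - s)} ≤ A * Real.exp (-(c * (s ^ (1 / r) * (N : ℝ) ^ (1 - 1 / r))))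

end Pool.Agent.K4H17.FPP
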