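import Pool.Agent.K4H17.FPP.Indep

/-!
First-passage percolation on `ℤ²`: Harris' inequality for decreasing events of the weights.
-/

set_option autoImplicit false
open MeasureTheory ProbabilityTheory Filter

namespace Pool.Agent.K4H17.FPP

/-! ### Harris' inequality -/

/-- positive association of bounded antitone functions -/
def Assoc {α : Type*} [MeasurableSpace α] [Preorder α] (μ : Measure α) : Prop :=
  ∀ f g : α → ℝ, Measurable f → Measurable g → Antitone f → Antitone g →
    (∀ x, f x ∈ Set.Icc (0 : ℝ) 1) → (∀ x, g x ∈ Set.Icc (0 : ℝ) 1) →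
    (∫ x, f x ∂μ) * (∫ x, g x ∂μ) ≤ ∫ x, f x * g x ∂μ

theorem integrable_01 {α : Type*} [MeasurableSpace α] (μ : Measure α) [IsProbabilityMeasure μ]
    {f : α → ℝ} (hf : Measurable f) (bf : ∀ x, f x ∈ Set.Icc (0 : ℝ) 1) : Integrable f μ := by
  refine Integrable.of_bound hf.aestronglyMeasurable 1 (Eventually.of_forall fun x => ?_)
  rw [Real.norm_eq_abs, abs_le]
  exact ⟨by linarith [(bf x).1], (bf x).2⟩

theorem mul_01 {a b : ℝ} (ha : a ∈ Set.Icc (0 : ℝ) 1) (hb : b ∈ Set.Icc (0 : ℝ) 1) :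
    a * b ∈ Set.Icc (0 : ℝ) 1 :=
  ⟨mul_nonneg ha.1 hb.1, mul_le_one₀ ha.2 hb.1 hb.2⟩

theorem int_lin {α : Type*} [MeasurableSpace α] (ν : Measure α) [IsProbabilityMeasure ν]
    {F G H : α → ℝ} (hF : Integrable F ν) (hG : Integrable G ν) (hH : Integrable H ν)
    (c d k : ℝ) : ∫ s, (F s - c * G s - d * H s + k) ∂ν =
      (∫ s, F s ∂ν) - c * (∫ s, G s ∂ν) - d * (∫ s, H s ∂ν) + k := by
  have h1 : Integrable (fun s => c * G s) ν := hG.const_mul c
  have h2 : Integrable (fun s => d * H s) ν := hH.const_mul d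
  have h3 : Integrable (fun s => F s - c * G s) ν := hF.sub h1
  have h4 : Integrable (fun s => F s - c * G s - d * H s) ν := h3.sub h2
  rw [integral_add h4 (integrable_const k), integral_sub h3 h2, integral_sub hF h1,
    integral_const_mul, integral_const_mul, integral_const]
  simp

theorem assoc_real (ν : Measure ℝ) [IsProbabilityMeasure ν] : Assoc ν := by
  intro f g hf hg af ag bf bg
  have intf : Integrable f ν := integrable_01 ν hf bf
  have intg : Integrable g ν := integrable_01 ν hg bg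
  have intfg : Integrable (fun x => f x * g x) ν :=
    integrable_01 ν (hf.mul hg) fun x => mul_01 (bf x) (bg x)
  have key : ∀ t, 0 ≤ (∫ x, f x * g x ∂ν) - f t * (∫ x, g x ∂ν) - g t * (∫ x, f x ∂ν) +
      f t * g t := by
    intro t
    have h1 : 0 ≤ ∫ s, (f s - f t) * (g s - g t) ∂ν := integral_nonneg (fun s => by
      rcases le_total s t with h | h
      · exact mul_nonneg (sub_nonneg.2 (af h)) (sub_nonneg.2 (ag h))
      · exact mul_nonneg_of_nonpos_of_nonpos (sub_nonpos.2 (af h)) (sub_nonpos.2 (ag h)))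
    have h2 : ∫ s, (f s - f t) * (g s - g t) ∂ν =
        (∫ x, f x * g x ∂ν) - f t * (∫ x, g x ∂ν) - g t * (∫ x, f x ∂ν) + f t * g t := by
      have h3 : (fun s => (f s - f t) * (g s - g t)) =
          fun s => f s * g s - f t * g s - g t * f s + f t * g t := by
        funext s
        ring
      rw [h3, int_lin ν intfg intg intf]
    rwa [h2] at h1
  have h4 : 0 ≤ ∫ t, ((∫ x, f x * g x ∂ν) - f t * (∫ x, g x ∂ν) - g t * (∫ x, f x ∂ν) +
      f t * g t) ∂ν := integral_nonneg key
  have h5 : ∫ t, ((∫ x, f x * g x ∂ν) - f t * (∫ x, g x ∂ν) - g t * (∫ x, f x ∂ν) +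
      f t * g t) ∂ν = 2 * ((∫ x, f x * g x ∂ν) - (∫ x, f x ∂ν) * (∫ x, g x ∂ν)) := by
    have h6 : (fun t => ((∫ x, f x * g x ∂ν) - f t * (∫ x, g x ∂ν) - g t * (∫ x, f x ∂ν) +
      f t * g t)) = fun t => f t * g t - (∫ x, g x ∂ν) * f t - (∫ x, f x ∂ν) * g t +
        (∫ x, f x * g x ∂ν) := by
      funext t
      ring
    rw [h6, int_lin ν intfg intf intg]
    ring
  rw [h5] at h4
  linarith

theorem assoc_prod {α β : Type*} [MeasurableSpace α] [Preorder α] [MeasurableSpace β]
    [Preorder β] {μ : Measure α} {ν : Measure β} [IsProbabilityMeasure μ]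
    [IsProbabilityMeasure ν] (hμ : Assoc μ) (hν : Assoc ν) : Assoc (μ.prod ν) := by
  intro f g hf hg af ag bf bg
  have meas : ∀ f : α × β → ℝ, Measurable f → Measurable (fun t => ∫ y, f (t, y) ∂ν) :=
    fun f hf => (hf.stronglyMeasurable.integral_prod_right' (ν := ν)).measurable
  have bnd : ∀ f : α × β → ℝ, Measurable f → (∀ x, f x ∈ Set.Icc (0 : ℝ) 1) →
      ∀ t, (∫ y, f (t, y) ∂ν) ∈ Set.Icc (0 : ℝ) 1 := by
    intro f hf bf t
    refine ⟨integral_nonneg fun y => (bf _).1, ?_⟩
    have h1 : (∫ y, f (t, y) ∂ν) ≤ ∫ y, (1 : ℝ) ∂ν :=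
      integral_mono (integrable_01 ν (hf.comp measurable_prodMk_left) fun y => bf _)
        (integrable_const _) fun y => (bf _).2
    simpa using h1
  have anti : ∀ f : α × β → ℝ, Measurable f → (∀ x, f x ∈ Set.Icc (0 : ℝ) 1) → Antitone f →
      Antitone (fun t => ∫ y, f (t, y) ∂ν) := by
    intro f hf bf af s t hst
    exact integral_mono (integrable_01 ν (hf.comp measurable_prodMk_left) fun y => bf _)
      (integrable_01 ν (hf.comp measurable_prodMk_left) fun y => bf _)
      fun y => af ⟨hst, le_rfl⟩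
  have ifg : Integrable (fun x => f x * g x) (μ.prod ν) :=
    integrable_01 _ (hf.mul hg) fun x => mul_01 (bf x) (bg x)
  rw [integral_prod _ (integrable_01 _ hf bf), integral_prod _ (integrable_01 _ hg bg),
    integral_prod _ ifg]
  refine (hμ _ _ (meas f hf) (meas g hg) (anti f hf bf af) (anti g hg bg ag) (bnd f hf bf)
    (bnd g hg bg)).trans ?_
  refine integral_mono ?_ ?_ ?_
  · exact integrable_01 μ ((meas f hf).mul (meas g hg)) fun t => mul_01 (bnd f hf bf t)
      (bnd g hg bg t)
  · exact integrable_01 μ (meas _ (hf.mul hg))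
      (bnd _ (hf.mul hg) fun x => mul_01 (bf x) (bg x))
  · intro t
    exact hν (fun y => f (t, y)) (fun y => g (t, y)) (hf.comp measurable_prodMk_left)
      (hg.comp measurable_prodMk_left) (fun a b h => af ⟨le_rfl, h⟩) (fun a b h => ag ⟨le_rfl, h⟩)
      (fun y => bf _) (fun y => bg _)

theorem assoc_of_mp {α β : Type*} [MeasurableSpace α] [Preorder α] [MeasurableSpace β]
    [Preorder β] {μ : Measure α} {ν : Measure β} (e : α ≃ᵐ β) (he : MeasurePreserving e μ ν)
    (hm : Monotone e) (h : Assoc μ) : Assoc ν := by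
  intro f g hf hg af ag bf bg
  have h1 := h (fun x => f (e x)) (fun x => g (e x)) (hf.comp e.measurable)
    (hg.comp e.measurable) (fun a b hab => af (hm hab)) (fun a b hab => ag (hm hab))
    (fun x => bf _) (fun x => bg _)
  rw [he.integral_comp' (g := f), he.integral_comp' (g := g),
    he.integral_comp' (g := fun x => f x * g x)] at h1
  exact h1

theorem assoc_fin : ∀ (n : ℕ) (ν : Fin n → Measure ℝ) [∀ i, IsProbabilityMeasure (ν i)],
    Assoc (Measure.pi ν) := by
  intro n
  induction n with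
  | zero =>
    intro ν _ f g hf hg af ag bf bg
    rw [Measure.pi_of_empty ν (fun i => i.elim0)]
    simp
  | succ n ih =>
    intro ν _
    have h1 := assoc_prod (assoc_real (ν 0)) (ih fun j => ν (Fin.succAbove 0 j))
    refine assoc_of_mp (MeasurableEquiv.piFinSuccAbove (fun _ => ℝ) 0).symm
      (measurePreserving_piFinSuccAbove ν 0).symm ?_ h1
    intro p q h i
    refine Fin.cases ?_ ?_ i
    · simpa [MeasurableEquiv.piFinSuccAbove] using h.1
    · intro j
      simpa [MeasurableEquiv.piFinSuccAbove] using h.2 j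

theorem assoc_pi {ι : Type*} [Fintype ι] (ν : ι → Measure ℝ) [∀ i, IsProbabilityMeasure (ν i)] :
    Assoc (Measure.pi ν) := by
  have e := Fintype.equivFin ι
  refine assoc_of_mp (MeasurableEquiv.piCongrLeft (fun _ => ℝ) e.symm)
    (measurePreserving_piCongrLeft ν e.symm) ?_ (assoc_fin _ fun i => ν (e.symm i))
  intro p q h i
  obtain ⟨j, rfl⟩ := e.symm.surjective i
  rw [MeasurableEquiv.coe_piCongrLeft, Equiv.piCongrLeft_apply_apply,
    Equiv.piCongrLeft_apply_apply]
  exact h j

/-- Harris' inequality for finite products, decreasing events -/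
theorem harris_pi {ι : Type*} [Fintype ι] (ν : ι → Measure ℝ) [∀ i, IsProbabilityMeasure (ν i)]
    {A B : Set (ι → ℝ)} (hA : MeasurableSet A) (hB : MeasurableSet B)
    (dA : ∀ x y : ι → ℝ, (∀ i, y i ≤ x i) → x ∈ A → y ∈ A)
    (dB : ∀ x y : ι → ℝ, (∀ i, y i ≤ x i) → x ∈ B → y ∈ B) :
    (Measure.pi ν).real A * (Measure.pi ν).real B ≤ (Measure.pi ν).real (A ∩ B) := by
  have bnd : ∀ (S : Set (ι → ℝ)) x, S.indicator (1 : (ι → ℝ) → ℝ) x ∈ Set.Icc (0 : ℝ) 1 := by
    intro S x
    by_cases hx : x ∈ S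
    · rw [Set.indicator_of_mem hx]
      simp
    · rw [Set.indicator_of_notMem hx]
      simp
  have anti : ∀ S : Set (ι → ℝ), (∀ x y : ι → ℝ, (∀ i, y i ≤ x i) → x ∈ S → y ∈ S) →
      Antitone (S.indicator (1 : (ι → ℝ) → ℝ)) := by
    intro S hS x y hxy
    by_cases hy : y ∈ S
    · rw [Set.indicator_of_mem hy, Set.indicator_of_mem (hS y x hxy hy)]
      simp
    · rw [Set.indicator_of_notMem hy]
      exact (bnd S x).1
  have h := assoc_pi ν (A.indicator 1) (B.indicator 1) (measurable_one.indicator hA)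
    (measurable_one.indicator hB) (anti A dA) (anti B dB) (bnd A) (bnd B)
  have h2 : (fun x => A.indicator (1 : (ι → ℝ) → ℝ) x * B.indicator (1 : (ι → ℝ) → ℝ) x) =
      (A ∩ B).indicator 1 := by
    funext x
    rw [Set.inter_indicator_one]
    rfl
  rw [h2, integral_indicator_one hA, integral_indicator_one hB,
    integral_indicator_one (hA.inter hB)] at h
  exact h

/-- Harris' inequality for decreasing events which depend on finitely many weights -/
theorem harris_PP {E : Finset (Sym2 V)} {A B : Set W} (hA : DepOn E A) (hB : DepOn E B)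
    (mA : MeasurableSet A) (mB : MeasurableSet B)
    (dA : ∀ x y : W, (∀ e, y e ≤ x e) → x ∈ A → y ∈ A)
    (dB : ∀ x y : W, (∀ e, y e ≤ x e) → x ∈ B → y ∈ B) :
    PP.real A * PP.real B ≤ PP.real (A ∩ B) := by
  have hmap : Measure.map (E.restrict (π := fun _ : Sym2 V => ℝ)) PP =
      Measure.pi (fun _ : E => expMeasure 1) := Measure.infinitePi_map_restrict _
  have key : ∀ S : Set W, DepOn E S → MeasurableSet S →
      PP.real S = (Measure.pi (fun _ : E => expMeasure 1)).real ((ext0 E) ⁻¹' S) := by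
    intro S hS mS
    rw [← hmap, map_measureReal_apply (Finset.measurable_restrict E) (measurable_ext0 E mS)]
    congr 1
    exact preimage_ext0 hS
  have hAB : DepOn E (A ∩ B) := fun x y h hx => ⟨hA x y h hx.1, hB x y h hx.2⟩
  rw [key A hA mA, key B hB mB, key _ hAB (mA.inter mB), Set.preimage_inter]
  have mono : ∀ x y : E → ℝ, (∀ i, y i ≤ x i) → ∀ e, ext0 E y e ≤ ext0 E x e := by
    intro x y h e
    unfold ext0
    split_ifs with he
    · exact h ⟨e, he⟩
    · exact le_rfl
  exact harris_pi _ (measurable_ext0 E mA) (measurable_ext0 E mB)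
    (fun x y h hx => dA _ _ (mono x y h) hx) (fun x y h hx => dB _ _ (mono x y h) hx)

/-- `Fast` is a decreasing event -/
theorem Fast.anti {x y : W} {B : Set V} {u v : V} {c : ℝ} (h : ∀ e, y e ≤ x e)
    (hx : Fast x B u v c) : Fast y B u v c := by
  obtain ⟨n, p, hp, hlt⟩ := hx
  refine ⟨n, p, hp, lt_of_le_of_lt ?_ hlt⟩
  unfold cst
  exact Finset.sum_le_sum fun i _ => h _

/-- a path stays in some ball -/
theorem fast_iUnion (u v : V) (c : ℝ) :
    {x : W | Fast x Set.univ u v c} = ⋃ N : ℕ, {x : W | Fast x (Bl 0 N) u v c} := by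
  ext x
  simp only [Set.mem_iUnion, Set.mem_ofPred_eq]
  constructor
  · rintro ⟨n, p, ⟨h1, h2, h3, _⟩, hlt⟩
    refine ⟨(Finset.range (n + 1)).sup fun i => nrm (p i), n, p, ⟨h1, h2, h3, ?_⟩, hlt⟩
    intro i hi
    rw [mem_Bl, sub_zero]
    exact Finset.le_sup (f := fun i => nrm (p i)) (Finset.mem_range.2 (by omega))
  · rintro ⟨N, h⟩
    exact h.mono (Set.subset_univ _) le_rfl

theorem fast_Bl_mono (u v : V) (c : ℝ) :
    Monotone fun N : ℕ => {x : W | Fast x (Bl 0 N) u v c} :=
  fun _ _ h _ hx => Fast.mono hx (Bl_mono h) le_rfl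

/-- positive correlation of two `Fast` events -/
theorem fkg_fast (u v w z : V) (c d : ℝ) :
    PP.real {x | Fast x Set.univ u v c} * PP.real {x | Fast x Set.univ w z d} ≤
      PP.real {x | Fast x Set.univ u v c ∧ Fast x Set.univ w z d} := by
  have lim : ∀ (a b : V) (t : ℝ), Tendsto (fun N : ℕ => PP.real {x : W | Fast x (Bl 0 N) a b t})
      atTop (nhds (PP.real {x | Fast x Set.univ a b t})) := by
    intro a b t
    have h := tendsto_measure_iUnion_atTop (μ := PP) (fast_Bl_mono a b t)
    rw [← fast_iUnion] at h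
    exact (ENNReal.tendsto_toReal (measure_ne_top _ _)).comp h
  refine le_of_tendsto' ((lim u v c).mul (lim w z d)) fun N => ?_
  refine (harris_PP (depOn_fast 0 u v N c) (depOn_fast 0 w z N d) (measurableSet_fast _ _ _ _)
    (measurableSet_fast _ _ _ _) (fun x y h hx => Fast.anti h hx)
    (fun x y h hx => Fast.anti h hx)).trans ?_
  refine measureReal_mono ?_ (measure_ne_top _ _)
  rintro x ⟨h1, h2⟩
  exact ⟨Fast.mono h1 (Set.subset_univ _) le_rfl, Fast.mono h2 (Set.subset_univ _) le_rfl⟩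

end Pool.Agent.K4H17.FPP
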