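import Pool.Agent.K4H17.FPP.LD.Scale

/-!
First-passage percolation on `ℤ²`: large deviations of the lower tail, iteration of the exponent.
-/

set_option autoImplicit false
open MeasureTheory ProbabilityTheory Filter
open scoped Pointwise

namespace Pool.Agent.K4H17.FPP

theorem lo_of_slo {φ : V → ℝ} {β c0 : ℝ} {N0 : ℕ}
    (H : ∀ N ≥ N0, ∀ v : V, nrm v ≤ N →
      PP.real {x | Fast x Set.univ 0 v (φ v - (N : ℝ) ^ β)} ≤ Real.exp (-(N : ℝ) ^ c0))
    {ρ : ℕ} (h1 : N0 ≤ 3 * ρ) {w : V} (hw : nrm w ≤ 3 * ρ) {s : ℝ}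
    (hs : (3 * (ρ : ℝ)) ^ β ≤ s) :
    PP.real {x | Fast x Set.univ 0 w (φ w - s)} ≤ Real.exp (-(3 * (ρ : ℝ)) ^ c0) := by
  have h2 := H (3 * ρ) h1 w hw
  push_cast at h2
  refine le_trans (measureReal_mono ?_ (measure_ne_top _ _)) h2
  intro x hx
  exact Fast.mono hx le_rfl (by linarith)

theorem tail_base {φ : V → ℝ} {C : ℝ} (hC : 1 ≤ C) {β r : ℝ} (hβ : 0 < β) (hr : 0 < r)
    (hrβ : r < 1 - β) {c0 : ℝ} (hc0 : r < c0) {N0 : ℕ}
    (H : ∀ N ≥ N0, ∀ v : V, nrm v ≤ N →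
      PP.real {x | Fast x Set.univ 0 v (φ v - (N : ℝ) ^ β)} ≤ Real.exp (-(N : ℝ) ^ c0)) :
    Tail φ C r := by
  set δ : ℝ := (c0 - r) / 2 with hδ
  have hδ0 : 0 < δ := by rw [hδ]; linarith
  have hev : ∀ᶠ ρ : ℕ in atTop, ∀ w : V, nrm w ≤ 3 * ρ → ∀ s : ℝ,
      (ρ : ℝ) ^ (1 - r) ≤ s → s ≤ 3 * C * ρ →
      PP.real {x | Fast x Set.univ 0 w (φ w - s)} ≤
        Real.exp (-((ρ : ℝ) ^ δ * (s * (ρ : ℝ) ^ (r - 1)))) := by
    filter_upwards [eventually_ge_atTop N0, eventually_ge_atTop 1,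
      pow_lt (show β < 1 - r by linarith) ((3 : ℝ) ^ β),
      pow_lt (show δ + r < c0 by rw [hδ]; linarith) (3 * C)] with ρ g0 g1 g2 g3 w hw s hs1 hs2
    have hρ0 : (0 : ℝ) < ρ := by exact_mod_cast g1
    have h1 : (3 * (ρ : ℝ)) ^ β ≤ s := by
      rw [Real.mul_rpow (by norm_num) hρ0.le]
      linarith
    refine (lo_of_slo H (by omega) hw h1).trans ?_
    apply Real.exp_le_exp.2
    apply neg_le_neg
    have h2 : (ρ : ℝ) ^ c0 ≤ (3 * (ρ : ℝ)) ^ c0 :=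
      Real.rpow_le_rpow hρ0.le (by linarith) (by linarith)
    calc (ρ : ℝ) ^ δ * (s * (ρ : ℝ) ^ (r - 1)) ≤
          (ρ : ℝ) ^ δ * (3 * C * ρ * (ρ : ℝ) ^ (r - 1)) := by gcongr
      _ = 3 * C * ((ρ : ℝ) ^ δ * (ρ ^ (1 : ℝ) * (ρ : ℝ) ^ (r - 1))) := by
          rw [Real.rpow_one]
          ring
      _ = 3 * C * (ρ : ℝ) ^ (δ + r) := by
          rw [← Real.rpow_add hρ0, ← Real.rpow_add hρ0]
          congr 2
          ring
      _ ≤ (ρ : ℝ) ^ c0 := g3
      _ ≤ (3 * (ρ : ℝ)) ^ c0 := h2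
  obtain ⟨ρ0, h⟩ := eventually_atTop.1 hev
  exact ⟨δ, hδ0, ρ0, fun ρ hρ w hw s h1 h2 => h ρ hρ w hw s h1 h2⟩

theorem tail_step {φ : V → ℝ} {C : ℝ} {β r r' : ℝ} (hβ : 0 < β)
    (hr : 0 < r) (hr1 : r < 1) (hrβ : r' < 1 - β) {c0 : ℝ} (hc00 : 0 < c0)
    (hc0 : r' < c0 + r - r * c0) {N0 : ℕ}
    (H : ∀ N ≥ N0, ∀ v : V, nrm v ≤ N →
      PP.real {x | Fast x Set.univ 0 v (φ v - (N : ℝ) ^ β)} ≤ Real.exp (-(N : ℝ) ^ c0))
    (hL : LDB φ r) : Tail φ C r' := by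
  obtain ⟨A, c, hA, hc, hL⟩ := hL
  set δ : ℝ := (c0 * (1 - r) + r - r') / 3 with hδ
  have hδ0 : 0 < δ := by rw [hδ]; linarith
  set b : ℝ := c0 + 1 - r' - δ with hb
  set e1 : ℝ := b * (1 / r - 1) + (1 - 1 / r) with he1
  have he1' : 3 * δ + r' - 1 ≤ e1 := by
    have h1 : e1 * r = b * (1 - r) + (r - 1) := by
      rw [he1]
      field_simp
    have h2 : (3 * δ + r' - 1) * r ≤ e1 * r := by
      rw [h1]
      have h3 : 3 * δ = c0 * (1 - r) + r - r' := by rw [hδ]; ring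
      have h4 : 0 ≤ δ * (2 - 2 * r) := mul_nonneg hδ0.le (by linarith)
      rw [hb]
      nlinarith
    exact le_of_mul_le_mul_right h2 hr
  set c3 : ℝ := c * (3 : ℝ) ^ (1 - 1 / r) with hc3
  have hc30 : 0 < c3 := by positivity
  have hev : ∀ᶠ ρ : ℕ in atTop, ∀ w : V, nrm w ≤ 3 * ρ → ∀ s : ℝ,
      (ρ : ℝ) ^ (1 - r') ≤ s → s ≤ 3 * C * ρ →
      PP.real {x | Fast x Set.univ 0 w (φ w - s)} ≤
        Real.exp (-((ρ : ℝ) ^ δ * (s * (ρ : ℝ) ^ (r' - 1)))) := by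
    filter_upwards [eventually_ge_atTop N0, eventually_ge_atTop 1,
      pow_lt (show β < 1 - r' by linarith) ((3 : ℝ) ^ β),
      ge_const (show (0 : ℝ) < 2 * δ by linarith) (2 / c3),
      ge_const hδ0 (Real.log A)] with ρ g0 g1 g2 g3 g4 w hw s hs1 hs2
    have hρ1 : (1 : ℝ) ≤ ρ := by exact_mod_cast g1
    have hρ0 : (0 : ℝ) < ρ := by linarith
    have hs0 : 0 < s := lt_of_lt_of_le (by positivity) hs1
    have h1 : (3 * (ρ : ℝ)) ^ β ≤ s := by
      rw [Real.mul_rpow (by norm_num) hρ0.le]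
      linarith
    set Y : ℝ := (ρ : ℝ) ^ δ * (s * (ρ : ℝ) ^ (r' - 1)) with hY
    rcases le_or_gt s ((ρ : ℝ) ^ b) with hsb | hsb
    · refine (lo_of_slo H (by omega) hw h1).trans ?_
      apply Real.exp_le_exp.2
      apply neg_le_neg
      have h2 : (ρ : ℝ) ^ c0 ≤ (3 * (ρ : ℝ)) ^ c0 :=
        Real.rpow_le_rpow hρ0.le (by linarith) (by linarith)
      refine le_trans ?_ h2
      calc Y ≤ (ρ : ℝ) ^ δ * ((ρ : ℝ) ^ b * (ρ : ℝ) ^ (r' - 1)) := by
            rw [hY]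
            gcongr
        _ = (ρ : ℝ) ^ c0 := by
            rw [← Real.rpow_add hρ0, ← Real.rpow_add hρ0]
            congr 1
            rw [hb]
            ring
    · have h2 := hL (3 * ρ) (by omega) w hw s hs0
      refine h2.trans ?_
      push_cast
      have h3 : 2 * Y ≤ c * (s ^ (1 / r) * (3 * (ρ : ℝ)) ^ (1 - 1 / r)) := by
        have h4 : s ^ (1 / r) = s * s ^ (1 / r - 1) := by
          rw [Real.rpow_sub_one hs0.ne']
          field_simp
        have h5 : (0 : ℝ) ≤ 1 / r - 1 := by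
          rw [sub_nonneg, one_le_div hr]
          exact hr1.le
        have h6 : (ρ : ℝ) ^ (b * (1 / r - 1)) ≤ s ^ (1 / r - 1) := by
          rw [Real.rpow_mul hρ0.le]
          exact Real.rpow_le_rpow (by positivity) hsb.le h5
        have h7 : (3 * (ρ : ℝ)) ^ (1 - 1 / r) = (3 : ℝ) ^ (1 - 1 / r) * (ρ : ℝ) ^ (1 - 1 / r) :=
          Real.mul_rpow (by norm_num) hρ0.le
        have h8 : (ρ : ℝ) ^ (3 * δ + r' - 1) ≤ (ρ : ℝ) ^ e1 :=
          Real.rpow_le_rpow_of_exponent_le hρ1 he1'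
        have h9 : (ρ : ℝ) ^ (3 * δ + r' - 1) =
            (ρ : ℝ) ^ (2 * δ) * ((ρ : ℝ) ^ δ * (ρ : ℝ) ^ (r' - 1)) := by
          rw [← Real.rpow_add hρ0, ← Real.rpow_add hρ0]
          congr 1
          ring
        have h10 : 2 ≤ c3 * (ρ : ℝ) ^ (2 * δ) := by
          rw [div_le_iff₀ hc30] at g3
          linarith
        calc 2 * Y = 2 * ((ρ : ℝ) ^ δ * (ρ : ℝ) ^ (r' - 1) * s) := by rw [hY]; ring
          _ ≤ (c3 * (ρ : ℝ) ^ (2 * δ)) * ((ρ : ℝ) ^ δ * (ρ : ℝ) ^ (r' - 1) * s) :=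
              mul_le_mul_of_nonneg_right h10 (by positivity)
          _ = c3 * s * (ρ : ℝ) ^ (3 * δ + r' - 1) := by rw [h9]; ring
          _ ≤ c3 * s * (ρ : ℝ) ^ e1 := mul_le_mul_of_nonneg_left h8 (by positivity)
          _ = c3 * s * ((ρ : ℝ) ^ (b * (1 / r - 1)) * (ρ : ℝ) ^ (1 - 1 / r)) := by
              rw [← Real.rpow_add hρ0]
          _ ≤ c3 * s * (s ^ (1 / r - 1) * (ρ : ℝ) ^ (1 - 1 / r)) := by gcongr
          _ = c * (s ^ (1 / r) * (3 * (ρ : ℝ)) ^ (1 - 1 / r)) := by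
              rw [h4, h7, hc3]
              ring
      have h11 : Real.log A ≤ Y := by
        have h12 : 1 ≤ s * (ρ : ℝ) ^ (r' - 1) := by
          calc (1 : ℝ) = (ρ : ℝ) ^ (1 - r') * (ρ : ℝ) ^ (r' - 1) := by
                rw [← Real.rpow_add hρ0]
                simp
            _ ≤ s * (ρ : ℝ) ^ (r' - 1) := mul_le_mul_of_nonneg_right hs1 (by positivity)
        calc Real.log A ≤ (ρ : ℝ) ^ δ * 1 := by linarith
          _ ≤ Y := mul_le_mul_of_nonneg_left h12 (by positivity)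
      set Z : ℝ := c * (s ^ (1 / r) * (3 * (ρ : ℝ)) ^ (1 - 1 / r)) with hZ
      calc A * Real.exp (-Z) = Real.exp (Real.log A - Z) := by
            rw [sub_eq_add_neg, Real.exp_add, Real.exp_log hA]
        _ ≤ Real.exp (-Y) := Real.exp_le_exp.2 (by linarith)
  obtain ⟨ρ0, h⟩ := eventually_atTop.1 hev
  exact ⟨δ, hδ0, ρ0, fun ρ hρ w hw s h1 h2 => h ρ hρ w hw s h1 h2⟩

theorem ldb_all {φ : V → ℝ} {C : ℝ} (hφ : SubOK φ C)
    (hge : ∀ v : V, (nrm v : ℝ) / 2048 ≤ φ v) (hsaw : SawBound) {a : ℝ} (ha : 0 < a)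
    (H : ∀ β, a < β → SLoF φ β) {r : ℝ} (hr : 0 < r) (hra : r < 1 - a) : LDB φ r := by
  set β : ℝ := (a + (1 - r)) / 2 with hβ
  have hβa : a < β := by rw [hβ]; linarith
  have hβr : r < 1 - β := by rw [hβ]; linarith
  have hβ0 : 0 < β := by linarith
  obtain ⟨c0, hc0, N0, hN⟩ := H β hβa
  set η : ℝ := c0 * β / 2 with hη
  have hη0 : 0 < η := by positivity
  have hηc : η < c0 := by
    rw [hη]
    nlinarith
  have key : ∀ k : ℕ, LDB φ (min r ((k + 1) * η)) := by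
    intro k
    induction k with
    | zero =>
      have h0 : 0 < min r (((0 : ℕ) + 1) * η) := lt_min hr (by simpa using hη0)
      have h1 : min r (((0 : ℕ) + 1) * η) ≤ η := by
        refine (min_le_right _ _).trans (le_of_eq ?_)
        simp
      have h2 : min r (((0 : ℕ) + 1 : ℝ) * η) ≤ r := min_le_left _ _
      exact ldb_of_tail hφ hge hsaw h0 (by linarith)
        (tail_base hφ.one_le hβ0 h0 (by linarith) (by linarith) hN)
    | succ k ih =>
      have h0 : 0 < min r ((k + 1) * η) := lt_min hr (by positivity)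
      have h1 : min r ((k + 1) * η) ≤ r := min_le_left _ _
      have h3 : 0 < min r (((k + 1 : ℕ) + 1 : ℝ) * η) := lt_min hr (by positivity)
      have h4 : min r (((k + 1 : ℕ) + 1 : ℝ) * η) ≤ r := min_le_left _ _
      have h5 : min r (((k + 1 : ℕ) + 1 : ℝ) * η) ≤ min r ((k + 1) * η) + η := by
        rcases le_total r ((k + 1) * η) with h | h
        · rw [min_eq_left h]
          linarith
        · rw [min_eq_right h]
          refine (min_le_right _ _).trans (le_of_eq ?_)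
          push_cast
          ring
      refine ldb_of_tail hφ hge hsaw h3 (by linarith)
        (tail_step hβ0 h0 (by linarith) (by linarith) hc0 ?_ hN ih)
      have h6 : η < c0 * (1 - min r ((k + 1) * η)) := by
        have : c0 * β ≤ c0 * (1 - min r ((k + 1) * η)) :=
          mul_le_mul_of_nonneg_left (by linarith) hc0.le
        have : 0 < c0 * β := by positivity
        rw [hη]
        linarith
      nlinarith
  obtain ⟨k, hk⟩ := exists_nat_ge (r / η)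
  have h1 := key k
  rw [div_le_iff₀ hη0] at hk
  rwa [min_eq_left (by nlinarith)] at h1

end Pool.Agent.K4H17.FPP
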