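import Pool.Agent.K4H17.FPP.LD.Core

/-!
First-passage percolation on `ℤ²`: large deviations of the lower tail, choice of the scale.
-/

set_option autoImplicit false
open MeasureTheory ProbabilityTheory Filter
open scoped Pointwise

namespace Pool.Agent.K4H17.FPP

theorem fast_null {φ : V → ℝ} {v : V} {s : ℝ} (h : φ v ≤ s) :
    PP.real {x | Fast x Set.univ 0 v (φ v - s)} = 0 := by
  rw [measureReal_def, ENNReal.toReal_eq_zero_iff]
  left
  apply measure_mono_null (t := {x : W | ¬ ∀ e, 0 ≤ x e})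
  · rintro x ⟨k, p, hp, hlt⟩ hx
    have := cst_nonneg hx p k
    linarith
  · exact nonneg_ae

/-- from tail bounds at all large scales to the large deviation bound -/
theorem ldb_of_tail {φ : V → ℝ} {C : ℝ} (hφ : SubOK φ C)
    (hge : ∀ v : V, (nrm v : ℝ) / 2048 ≤ φ v) (hsaw : SawBound)
    {r : ℝ} (hr : 0 < r) (hr1 : r < 1) (hT : Tail φ C r) : LDB φ r := by
  have hC := hφ.one_le
  obtain ⟨K, hK⟩ := exists_nat_ge (6144 * C)
  have hK1 : 1 ≤ K := by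
    have : (1 : ℝ) ≤ K := by linarith
    exact_mod_cast this
  obtain ⟨ρ1, hρ1⟩ := eventually_atTop.1 (dev_tail hC hsaw K hK1 hr hr1 hT)
  set ρ0 : ℕ := max ρ1 1 with hρ0
  set B : ℝ := 32768 * C with hB
  have hB0 : 0 < B := by rw [hB]; linarith
  have hBC : C ≤ B := by rw [hB]; linarith
  set c : ℝ := ((ρ0 : ℝ) + 2) ^ (r - 1) * B ^ (1 - 1 / r) / 2 with hc
  have hρ00 : (0 : ℝ) ≤ ρ0 := Nat.cast_nonneg _
  have hc0 : 0 < c := by positivity
  refine ⟨(2 * K + 5) ^ 2 * Real.exp 16, c, by positivity, hc0, ?_⟩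
  intro N hN v hv s hs
  have hN0 : (0 : ℝ) < N := by exact_mod_cast hN
  have hvN : (nrm v : ℝ) ≤ N := by exact_mod_cast hv
  have hφv : φ v ≤ C * N := (hφ.le v).trans (mul_le_mul_of_nonneg_left hvN (by linarith))
  rcases le_or_gt (φ v) s with h1 | h1
  · rw [fast_null h1]
    positivity
  have hsN : s ≤ C * N := by linarith
  set X : ℝ := B * N / s with hX
  have hX1 : 1 ≤ X := by
    rw [hX, one_le_div hs]
    calc s ≤ C * N := hsN
      _ ≤ B * N := mul_le_mul_of_nonneg_right hBC hN0.le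
  have hX0 : 0 < X := by linarith
  set ρ : ℕ := max ρ0 ⌈X ^ (1 / r)⌉₊ with hρ
  have hρge0 : ρ0 ≤ ρ := le_max_left _ _
  have hρ1' : 1 ≤ ρ := (le_max_right ρ1 1).trans hρge0
  have hρ1r : (1 : ℝ) ≤ ρ := by exact_mod_cast hρ1'
  have hρ0r : (0 : ℝ) < ρ := by linarith
  have hXρ : X ^ (1 / r) ≤ ρ :=
    (Nat.le_ceil _).trans (by exact_mod_cast le_max_right _ _)
  have hXr1 : 1 ≤ X ^ (1 / r) := Real.one_le_rpow hX1 (by positivity)
  have hρX : (ρ : ℝ) ≤ (ρ0 + 2) * X ^ (1 / r) := by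
    have h2 : (ρ : ℝ) ≤ ρ0 + ⌈X ^ (1 / r)⌉₊ := by
      have : ρ ≤ ρ0 + ⌈X ^ (1 / r)⌉₊ := by
        rw [hρ]
        exact max_le (by omega) (by omega)
      exact_mod_cast this
    have h3 : ((⌈X ^ (1 / r)⌉₊ : ℕ) : ℝ) < X ^ (1 / r) + 1 := Nat.ceil_lt_add_one (by positivity)
    nlinarith
  set h : ℝ := (ρ : ℝ) ^ (1 - r) with hh
  have hh0 : 0 < h := by positivity
  have hXr : X ≤ (ρ : ℝ) ^ r := by
    calc X = (X ^ (1 / r)) ^ r := by
          rw [← Real.rpow_mul hX0.le, one_div, inv_mul_cancel₀ hr.ne', Real.rpow_one]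
      _ ≤ (ρ : ℝ) ^ r := Real.rpow_le_rpow (by positivity) hXρ hr.le
  set J : ℕ := ⌊3 * C * ρ / h⌋₊ with hJ
  have hJ1 : 3 * C * ρ ≤ (J + 1) * h := by
    have := Nat.lt_floor_add_one (3 * C * ρ / h)
    rw [div_lt_iff₀ hh0] at this
    exact this.le
  have hdev : ∀ j : ℕ, 1 ≤ j → j ≤ J → ∀ z : V,
      PP.real (dev φ K ρ ((j : ℝ) * h) z) ≤ Real.exp (-(((2 * K + 5) ^ 2 + 1) * j)) := by
    intro j hj1 hj2 z
    apply hρ1 ρ ((le_max_left ρ1 1).trans hρge0) j hj1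
    have h4 : (j : ℝ) ≤ 3 * C * ρ / h :=
      (by exact_mod_cast hj2 : (j : ℝ) ≤ J).trans (Nat.floor_le (by positivity))
    rwa [le_div_iff₀ hh0] at h4
  set m : ℕ := ⌈4096 * φ v / (2 * ρ + 1)⌉₊ + 1 with hm
  have hφ0 := hφ.nonneg v
  have hm2 : 4096 * φ v ≤ m * (2 * ρ + 1) := by
    have h5 : 4096 * φ v / (2 * ρ + 1) ≤ (⌈4096 * φ v / (2 * (ρ : ℝ) + 1)⌉₊ : ℝ) := Nat.le_ceil _
    rw [div_le_iff₀ (by positivity)] at h5
    rw [hm]
    push_cast
    nlinarith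
  have hcore := ld_core hφ hge K hK v hρ1' h hh0 J hJ1 hdev m (by omega) hm2 s
  refine hcore.trans ?_
  rw [mul_assoc, ← Real.exp_add]
  apply mul_le_mul_of_nonneg_left _ (by positivity)
  apply Real.exp_le_exp.2
  -- number of blocks
  have hm3 : (m : ℝ) ≤ 2048 * C * N / ρ + 2 := by
    have h6 : (⌈4096 * φ v / (2 * (ρ : ℝ) + 1)⌉₊ : ℝ) < 4096 * φ v / (2 * ρ + 1) + 1 :=
      Nat.ceil_lt_add_one (by positivity)
    have h7 : 4096 * φ v / (2 * ρ + 1) ≤ 2048 * C * N / ρ := by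
      rw [div_le_div_iff₀ (by positivity) hρ0r]
      nlinarith
    rw [hm]
    push_cast
    linarith
  have hinv : 1 / h = (ρ : ℝ) ^ (r - 1) := by
    rw [hh, one_div, ← Real.rpow_neg hρ0r.le]
    congr 1
    ring
  have hsh : s / h = s * (ρ : ℝ) ^ (r - 1) := by rw [div_eq_mul_one_div, hinv]
  have hrho : (ρ : ℝ) ^ (r - 1) = (ρ : ℝ) ^ r / ρ := by
    rw [Real.rpow_sub_one hρ0r.ne']
  have hblocks : 8 * (2048 * C * N / ρ) ≤ s / h / 2 := by
    rw [hsh, hrho]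
    have h8 : B * N ≤ s * (ρ : ℝ) ^ r := by
      have := mul_le_mul_of_nonneg_left hXr hs.le
      rwa [hX, mul_div_cancel₀ _ hs.ne'] at this
    have h9 : 8 * (2048 * C * N / ρ) = (B * N / ρ) / 2 := by
      rw [hB]
      ring
    rw [h9]
    have h10 : B * N / ρ ≤ s * ((ρ : ℝ) ^ r / ρ) := by
      rw [← mul_div_assoc]
      exact div_le_div_of_nonneg_right h8 hρ0r.le
    linarith
  -- the exponent
  have hexp : c * (s ^ (1 / r) * (N : ℝ) ^ (1 - 1 / r)) ≤ s / h / 2 := by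
    rw [hsh]
    have h11 : ((ρ0 : ℝ) + 2) ^ (r - 1) * X ^ (1 - 1 / r) ≤ (ρ : ℝ) ^ (r - 1) := by
      have h12 : (((ρ0 : ℝ) + 2) * X ^ (1 / r)) ^ (r - 1) ≤ (ρ : ℝ) ^ (r - 1) :=
        Real.rpow_le_rpow_of_nonpos hρ0r hρX (by linarith)
      rw [Real.mul_rpow (by positivity) (by positivity), ← Real.rpow_mul hX0.le] at h12
      have h13 : 1 / r * (r - 1) = 1 - 1 / r := by
        field_simp
      rwa [h13] at h12
    have h14 : X ^ (1 - 1 / r) = B ^ (1 - 1 / r) * (N : ℝ) ^ (1 - 1 / r) * s ^ (1 / r - 1) := by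
      rw [hX, Real.div_rpow (by positivity) hs.le, Real.mul_rpow hB0.le hN0.le, div_eq_mul_inv,
        ← Real.rpow_neg hs.le]
      congr 2
      ring
    have h15 : s ^ (1 / r) = s * s ^ (1 / r - 1) := by
      rw [Real.rpow_sub_one hs.ne']
      field_simp
    rw [h14] at h11
    have h16 := mul_le_mul_of_nonneg_left h11 hs.le
    rw [hc, h15]
    linarith
  linarith

end Pool.Agent.K4H17.FPP
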