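import Pool.Agent.K4H17.FPP.LD.Defs

/-!
First-passage percolation on `ℤ²`: the last-exit skeleton and the deterministic part of the
large deviation bound (helper58).
-/

set_option autoImplicit false
open MeasureTheory ProbabilityTheory Filter
open scoped Pointwise

namespace Pool.Agent.K4H17.FPP

theorem exists_skel_aux (p : ℕ → V) (n ρ : ℕ) (hp : ∀ i < n, nrm (p (i + 1) - p i) = 1) :
    ∀ d s : ℕ, s ≤ n → n - s = d → ∃ k, ∃ τ : ℕ → ℕ, τ 0 = s ∧ (∀ i < k, τ i < τ (i + 1)) ∧
      τ k ≤ n ∧ (∀ i < k, nrm (p (τ (i + 1)) - p (τ i)) = 2 * ρ + 1) ∧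
      nrm (p n - p (τ k)) ≤ 2 * ρ ∧
      (∀ i j, i < j → j ≤ k → 2 * ρ + 1 ≤ nrm (p (τ j) - p (τ i))) ∧ ∀ i ≤ k, s ≤ τ i := by
  intro d
  induction d using Nat.strong_induction_on with
  | _ d ih =>
    intro s hs hd
    by_cases hend : nrm (p n - p s) ≤ 2 * ρ
    · exact ⟨0, fun _ => s, rfl, fun i hi => by omega, hs, fun i hi => by omega, hend,
        fun i j hij hj => by omega, fun i _ => le_rfl⟩
    · classical
      set P : ℕ → Prop := fun j => s ≤ j ∧ nrm (p j - p s) ≤ 2 * ρ with hP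
      have hPs : P s := ⟨le_rfl, by rw [sub_self, nrm_zero]; omega⟩
      obtain ⟨σ, hσ⟩ : ∃ σ, σ = Nat.findGreatest P n := ⟨_, rfl⟩
      have hσP : P σ := by rw [hσ]; exact Nat.findGreatest_spec hs hPs
      have hσn : σ ≤ n := by rw [hσ]; exact Nat.findGreatest_le n
      have hσne : σ ≠ n := by
        rintro rfl
        exact hend hσP.2
      have hlate : ∀ j, σ < j → j ≤ n → 2 * ρ + 1 ≤ nrm (p j - p s) := by
        intro j hj1 hj2
        have h1 : ¬ P j := Nat.findGreatest_is_greatest (by rw [← hσ]; exact hj1) hj2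
        by_contra hcon
        exact h1 ⟨by have := hσP.1; omega, by omega⟩
      have hs1 := hσP.1
      have ht : nrm (p (σ + 1) - p s) = 2 * ρ + 1 := by
        have h1 := hlate (σ + 1) (by omega) (by omega)
        have h2 := hp σ (by omega)
        have h3 := nrm_sub_le (p (σ + 1)) (p σ) (p s)
        have h4 := hσP.2
        omega
      obtain ⟨k, τ, e0, e1, e2, e3, e4, e5, e6⟩ := ih (n - (σ + 1)) (by omega) (σ + 1) (by omega) rfl
      refine ⟨k + 1, fun i => if i = 0 then s else τ (i - 1), ?_, ?_, ?_, ?_, ?_, ?_, ?_⟩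
      · simp
      · intro i hi
        rcases Nat.eq_zero_or_pos i with rfl | hi0
        · simp only [if_true, Nat.zero_add, one_ne_zero, if_false, Nat.sub_self, e0]
          omega
        · have h7 := e1 (i - 1) (by omega)
          rw [show i - 1 + 1 = i by omega] at h7
          simpa [show i ≠ 0 by omega] using h7
      · simpa using e2
      · intro i hi
        rcases Nat.eq_zero_or_pos i with rfl | hi0
        · simp only [if_true, Nat.zero_add, one_ne_zero, if_false, Nat.sub_self, e0]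
          exact ht
        · have h7 := e3 (i - 1) (by omega)
          rw [show i - 1 + 1 = i by omega] at h7
          simpa [show i ≠ 0 by omega] using h7
      · simpa using e4
      · intro i j hij hj
        rcases Nat.eq_zero_or_pos i with rfl | hi0
        · simp only [if_true, show j ≠ 0 by omega, if_false]
          have h7 := e6 (j - 1) (by omega)
          refine hlate _ (by omega) ?_
          have hmono : ∀ a b, a ≤ b → b ≤ k → τ a ≤ τ b := by
            intro a b hab
            induction b, hab using Nat.le_induction with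
            | base => intro _; exact le_rfl
            | succ b hab ih2 =>
              intro hb
              exact (ih2 (by omega)).trans (e1 b (by omega)).le
          exact (hmono (j - 1) k (by omega) le_rfl).trans e2
        · have h7 := e5 (i - 1) (j - 1) (by omega) (by omega)
          simpa [show i ≠ 0 by omega, show j ≠ 0 by omega] using h7
      · intro i hi
        rcases Nat.eq_zero_or_pos i with rfl | hi0
        · simp
        · have h7 := e6 (i - 1) (by omega)
          simp only [show i ≠ 0 by omega, if_false]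
          omega

theorem exists_skel (p : ℕ → V) (n ρ : ℕ) (hp : ∀ i < n, nrm (p (i + 1) - p i) = 1) :
    ∃ k τ, Skel p n ρ k τ := by
  obtain ⟨k, τ, e0, e1, e2, e3, e4, e5, _⟩ := exists_skel_aux p n ρ hp n 0 (Nat.zero_le _) rfl
  exact ⟨k, τ, e0, e1, e2, e3, e4, e5⟩

/-- one piece of the path -/
theorem piece_ge {φ : V → ℝ} {C : ℝ} (hφ : SubOK φ C) (K : ℕ) (hK : 6144 * C ≤ K) {x : W}
    (hx : ∀ e, 0 ≤ x e) (ρ : ℕ) (hρ : 1 ≤ ρ) (h : ℝ) (hh : 0 < h) (J : ℕ)
    (hJ : 3 * C * ρ ≤ (J + 1) * h) {p : ℕ → V} {n : ℕ}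
    (hp : ∀ i < n, nrm (p (i + 1) - p i) = 1) {a b : ℕ} (hab : a ≤ b) (hbn : b ≤ n)
    (hd : nrm (p b - p a) ≤ 3 * ρ) (β : ℕ)
    (hβ : β < J → x ∉ dev φ K ρ (((β + 1 : ℕ) : ℝ) * h) (cell ρ (p a))) (hβJ : β ≤ J) :
    φ (p b - p a) - h * (1 + (β : ℝ)) ≤ seg x p a b := by
  by_contra hcon
  push Not at hcon
  have hC := hφ.one_le
  have hρ' : (1 : ℝ) ≤ ρ := by exact_mod_cast hρ
  have hle : φ (p b - p a) ≤ 3 * C * ρ := by
    refine (hφ.le _).trans ?_
    have : (nrm (p b - p a) : ℝ) ≤ 3 * ρ := by exact_mod_cast hd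
    nlinarith
  have hs0 := seg_nonneg hx p a b
  rcases lt_or_ge β J with hlt | hge
  · apply hβ hlt
    refine ⟨p a, rfl, ?_⟩
    have hs : (((β + 1 : ℕ) : ℝ) * h) = h * (1 + (β : ℝ)) := by push_cast; ring
    rw [hs]
    by_cases hin : ∀ j, a ≤ j → j ≤ b → nrm (p j - p a) < K * ρ
    · left
      exact ⟨p b, hd, seg_fast hp hab hbn (fun j h1 h2 => (hin j h1 h2).le) hcon⟩
    · right
      push Not at hin
      classical
      have hex : ∃ j, a ≤ j ∧ j ≤ b ∧ K * ρ ≤ nrm (p j - p a) := hin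
      obtain ⟨t, ht⟩ : ∃ t, t = Nat.find hex := ⟨_, rfl⟩
      obtain ⟨h1, h2, h3⟩ := Nat.find_spec hex
      rw [← ht] at h1 h2 h3
      have hmin : ∀ j, a ≤ j → j < t → nrm (p j - p a) < K * ρ := by
        intro j hj1 hj2
        by_contra hcon2
        push Not at hcon2
        exact Nat.find_min hex (by rw [← ht]; exact hj2) ⟨hj1, by omega, hcon2⟩
      have hK1 : 1 ≤ K := by
        have : (1 : ℝ) ≤ K := by linarith
        exact_mod_cast this
      have hKρ : 1 ≤ K * ρ := Nat.mul_pos hK1 hρ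
      have hat : a < t := by
        rcases Nat.lt_or_ge a t with h | h
        · exact h
        · have : t = a := by omega
          rw [this, sub_self, nrm_zero] at h3
          omega
      have heq : nrm (p t - p a) = K * ρ := by
        have h4 := hmin (t - 1) (by omega) (by omega)
        have h5 := hp (t - 1) (by omega)
        rw [show t - 1 + 1 = t by omega] at h5
        have h6 := nrm_sub_le (p t) (p (t - 1)) (p a)
        omega
      refine ⟨p t, heq, seg_fast hp hat.le (h2.trans hbn) (fun j h4 h5 => ?_) ?_⟩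
      · rcases Nat.lt_or_ge j t with h | h
        · exact (hmin j h4 h).le
        · have : j = t := by omega
          rw [this]
          exact heq.le
      · have h7 := seg_add x p hat.le h2
        have h8 := seg_nonneg hx p t b
        have h9 : 0 ≤ h * (1 + (β : ℝ)) := by positivity
        have h10 : 3 * C * ρ ≤ ((K * ρ : ℕ) : ℝ) / 2048 := by
          push_cast
          rw [le_div_iff₀ (by norm_num)]
          nlinarith
        linarith
  · have : β = J := by omega
    have h1 : h * (1 + (β : ℝ)) = (J + 1) * h := by rw [this]; ring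
    linarith

theorem skel_det {φ : V → ℝ} {C : ℝ} (hφ : SubOK φ C) (hge : ∀ v : V, (nrm v : ℝ) / 2048 ≤ φ v)
    (K : ℕ) (hK : 6144 * C ≤ K) {x : W} (hx : ∀ e, 0 ≤ x e) (v : V) (ρ : ℕ) (hρ : 1 ≤ ρ)
    (h : ℝ) (hh : 0 < h) (J : ℕ) (hJ : 3 * C * ρ ≤ (J + 1) * h) (m : ℕ) (hm : 1 ≤ m)
    (hm2 : 4096 * φ v ≤ m * (2 * ρ + 1)) (E : ℝ) (hf : Fast x Set.univ 0 v (φ v - E)) :
    ∃ q : ℕ, 1 ≤ q ∧ q ≤ m ∧ ∃ z b, Lev φ K ρ h J q x z b ∧
      E ≤ h * ∑ i ∈ Finset.range q, (1 + (b i : ℝ)) := by
  classical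
  obtain ⟨n, p, hp, hlt⟩ := hf
  obtain ⟨k, τ, e0, e1, e2, e3, e4, e5⟩ := exists_skel p n ρ hp.2.2.1
  have hmono : ∀ a b, a ≤ b → b ≤ k → τ a ≤ τ b := by
    intro a b hab
    induction b, hab using Nat.le_induction with
    | base => intro _; exact le_rfl
    | succ b hab ih2 =>
      intro hb
      exact (ih2 (by omega)).trans (e1 b (by omega)).le
  have hτn : ∀ i ≤ k, τ i ≤ n := fun i hi => (hmono i k hi le_rfl).trans e2
  obtain ⟨z, hz⟩ : ∃ z : ℕ → V, z = fun i => cell ρ (p (τ i)) := ⟨_, rfl⟩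
  obtain ⟨b, hb⟩ : ∃ b : ℕ → ℕ, b = fun i =>
    Nat.findGreatest (fun j => x ∈ dev φ K ρ ((j : ℝ) * h) (z i)) J := ⟨_, rfl⟩
  have hbJ : ∀ i, b i ≤ J := fun i => by rw [hb]; exact Nat.findGreatest_le J
  have hbP : ∀ i, b i ≠ 0 → x ∈ dev φ K ρ ((b i : ℝ) * h) (z i) := by
    intro i hi
    have h1 : Nat.findGreatest (fun j => x ∈ dev φ K ρ ((j : ℝ) * h) (z i)) J = b i := by rw [hb]
    exact Nat.findGreatest_of_ne_zero (P := fun j => x ∈ dev φ K ρ ((j : ℝ) * h) (z i)) h1 hi
  have hbN : ∀ i, b i < J → x ∉ dev φ K ρ (((b i + 1 : ℕ) : ℝ) * h) (z i) := by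
    intro i hi
    have h1 : Nat.findGreatest (fun j => x ∈ dev φ K ρ ((j : ℝ) * h) (z i)) J < b i + 1 := by
      rw [hb]
      exact Nat.lt_succ_self _
    exact Nat.findGreatest_is_greatest (P := fun j => x ∈ dev φ K ρ ((j : ℝ) * h) (z i)) h1
      (by omega)
  have hlev : ∀ q, q ≤ k + 1 → Lev φ K ρ h J q x z b := by
    intro q hq
    refine ⟨?_, ?_, ?_, fun i _ => ⟨hbJ i, hbP i⟩⟩
    · rw [hz]
      simp only [e0, hp.1]
      simp [cell]
    · intro i hi
      rw [hz]
      refine (cell_lip hρ _ _).trans ?_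
      rw [e3 i (by omega)]
      have : (2 * ρ + 1) / ρ ≤ 3 := by
        rw [Nat.div_le_iff_le_mul_add_pred (by omega)]
        omega
      omega
    · intro i j hij hj heq
      rw [hz] at heq
      have h1 := cell_near hρ heq
      have h2 := e5 i j hij (by omega)
      rw [nrm_sub_comm] at h1
      omega
  have hpiece : ∀ i ≤ k, ∀ c, τ i ≤ c → c ≤ n → nrm (p c - p (τ i)) ≤ 3 * ρ →
      φ (p c - p (τ i)) - h * (1 + (b i : ℝ)) ≤ seg x p (τ i) c := by
    intro i hi c h1 h2 h3
    refine piece_ge hφ K hK hx ρ hρ h hh J hJ hp.2.2.1 h1 h2 h3 (b i) (fun h4 => ?_) (hbJ i)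
    have h5 := hbN i h4
    rw [hz] at h5
    exact h5
  have hinc : ∀ i < k, φ (p (τ (i + 1)) - p (τ i)) - h * (1 + (b i : ℝ)) ≤
      seg x p (τ i) (τ (i + 1)) := by
    intro i hi
    exact hpiece i hi.le _ (e1 i hi).le (hτn _ hi) (by rw [e3 i hi]; omega)
  by_cases hkm : k < m
  · refine ⟨k + 1, by omega, by omega, z, b, hlev _ le_rfl, ?_⟩
    have main : ∀ j ≤ k, φ (p (τ j)) - ∑ i ∈ Finset.range j, h * (1 + (b i : ℝ)) ≤
        seg x p 0 (τ j) := by
      intro j
      induction j with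
      | zero =>
        intro _
        rw [e0, hp.1, hφ.zero]
        simp [seg]
      | succ j ih =>
        intro hj
        have g1 := ih (by omega)
        have g2 := hinc j (by omega)
        rw [Finset.sum_range_succ, ← seg_add x p (Nat.zero_le (τ j)) (e1 j (by omega)).le]
        have g3 := hφ.sub (p (τ j)) (p (τ (j + 1)) - p (τ j))
        rw [add_sub_cancel] at g3
        linarith
    have g1 := main k le_rfl
    have g2 := hpiece k le_rfl n e2 le_rfl (by omega)
    have g3 := hφ.sub (p (τ k)) (p n - p (τ k))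
    rw [add_sub_cancel] at g3
    rw [hp.2.1] at g2 g3
    rw [← seg_zero, ← seg_add x p (Nat.zero_le (τ k)) e2] at hlt
    rw [Finset.mul_sum, Finset.sum_range_succ]
    linarith
  · push Not at hkm
    refine ⟨m, hm, le_rfl, z, b, hlev _ (by omega), ?_⟩
    have main : ∀ j ≤ k, (j : ℝ) * ((2 * ρ + 1) / 2048) -
        ∑ i ∈ Finset.range j, h * (1 + (b i : ℝ)) ≤ seg x p 0 (τ j) := by
      intro j
      induction j with
      | zero =>
        intro _
        rw [e0]
        simp [seg]
      | succ j ih =>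
        intro hj
        have g1 := ih (by omega)
        have g2 := hinc j (by omega)
        rw [Finset.sum_range_succ, ← seg_add x p (Nat.zero_le (τ j)) (e1 j (by omega)).le]
        have g3 := hge (p (τ (j + 1)) - p (τ j))
        rw [e3 j (by omega)] at g3
        push_cast at g3 ⊢
        linarith
    have g1 := main m hkm
    have g2 : seg x p 0 (τ m) ≤ cst x p n := by
      rw [← seg_zero, ← seg_add x p (Nat.zero_le (τ m)) (hτn m hkm)]
      have := seg_nonneg hx p (τ m) n
      linarith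
    have g3 := hφ.nonneg v
    rw [Finset.mul_sum]
    have g4 : (m : ℝ) * ((2 * ρ + 1) / 2048) = m * (2 * ρ + 1) / 2048 := by ring
    have g5 : 2 * φ v ≤ m * (2 * ρ + 1) / 2048 := by
      rw [le_div_iff₀ (by norm_num)]
      linarith
    linarith

end Pool.Agent.K4H17.FPP
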